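import Pool.Agent.H.MP_929345_co.Ub.Df
import Pool.Agent.H.MP_929345_co.Pl.SeB
import Pool.Agent.H.MP_929345_co.Pl.GaA
import Pool.Agent.H.MP_929345_co.Pl.KapC

/-! Uniform constants: packings in balls and near segments -/

set_option autoImplicit false

open MeasureTheory Set

namespace Pool.Agent.H.MP_929345_co.Ub

open Pool.Agent.H.MP_929345_co Pool.Agent.H.MP_929345_co.Pl

theorem beta_le_four {C : Set V} (hN : NB C) : beta C ≤ 4 := by
  have hab : cr (![1, 0] : V) ![0, 1] ≠ 0 := by simp [cr]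
  have h1 := beta_le hN.body hab
  have hsub : Par C ![1, 0] ![0, 1] ⊆ Metric.closedBall (0 : V) 1 := by
    rintro x ⟨hx0, hx1⟩
    have hhs : ∀ a : V, (∀ x ∈ C, ev a x ≤ 1) → Pl.hs C a ≤ 1 := by
      intro a ha
      apply csSup_le
      · exact ⟨_, ⟨0, zero_mem hN.body, rfl⟩⟩
      · rintro _ ⟨x, hx, rfl⟩
        exact ha x hx
    have hcoord : ∀ x ∈ C, ∀ i, x i ≤ 1 := by
      intro x hx i
      have h2 := hN.out hx
      rw [mem_closedBall_zero_iff] at h2
      have h3 := norm_le_pi_norm x i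
      rw [Real.norm_eq_abs] at h3
      exact (le_abs_self _).trans (h3.trans h2)
    have e0 := hhs ![1, 0] (by
      intro x hx
      have := hcoord x hx 0
      simpa [ev] using this)
    have e1 := hhs ![0, 1] (by
      intro x hx
      have := hcoord x hx 1
      simpa [ev] using this)
    have f0 : |x 0| ≤ 1 := by
      have : ev ![1, 0] x = x 0 := by simp [ev]
      rw [this] at hx0
      exact hx0.trans e0
    have f1 : |x 1| ≤ 1 := by
      have : ev ![0, 1] x = x 1 := by simp [ev]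
      rw [this] at hx1
      exact hx1.trans e1
    rw [mem_closedBall_zero_iff, pi_norm_le_iff_of_nonneg zero_le_one]
    intro i
    rw [Real.norm_eq_abs]
    fin_cases i
    · exact f0
    · exact f1
  have h3 : vl (Par C ![1, 0] ![0, 1]) ≤ vl (Metric.closedBall (0 : V) 1) := by
    unfold vl
    exact ENNReal.toReal_mono (isCompact_closedBall _ _).measure_lt_top.ne (measure_mono hsub)
  have h4 : vl (Metric.closedBall (0 : V) 1) = 4 := by
    unfold vl
    rw [Real.volume_pi_closedBall _ zero_le_one]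
    simp
    norm_num
  linarith

/-- Job C3b.  Number of centres of a packing in a ball. -/
theorem card_packing_u : ∃ κ > 0, ∀ C : Set V, NB C → ∀ X : Set V, IsPacking C X →
    ∀ (y : V) (R : ℝ), 0 ≤ R → (X ∩ Metric.closedBall y R).Finite ∧
      ((X ∩ Metric.closedBall y R).ncard : ℝ) ≤ κ * (R + 1) ^ 2 := by
  obtain ⟨r, hrr⟩ : ∃ r : ℝ, r = 1 / 2 := ⟨_, rfl⟩
  have hr : 0 < r := by rw [hrr]; norm_num
  refine ⟨(1 / r + 1) ^ 2, by positivity, ?_⟩
  intro C hN X hX y R hR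
  have hC := hN.body
  have hrC : Metric.closedBall (0 : V) r ⊆ C := by rw [hrr]; exact hN.inn
  have hball : Metric.ball (0 : V) r ⊆ C := Metric.ball_subset_closedBall.trans hrC
  have hsep : ∀ i j : X, i ≠ j → 2 * r ≤ ‖(i : V) - (j : V)‖ := by
    intro i j hij
    have h1 := hX i i.2 j j.2 (fun h => hij (Subtype.ext h))
    have h2 : r * gauge C ((i : V) - (j : V)) ≤ ‖(i : V) - (j : V)‖ := mul_gauge_le_norm hball
    nlinarith
  obtain ⟨h1, h2⟩ := card_near (fun i : X => (i : V)) (by positivity : 0 < 2 * r) hsep y hR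
  have himg : X ∩ Metric.closedBall y R =
      (Subtype.val : X → V) '' {i : X | ‖(i : V) - y‖ ≤ R} := by
    ext z
    constructor
    · rintro ⟨hz, hz2⟩
      rw [Metric.mem_closedBall, dist_eq_norm] at hz2
      exact ⟨⟨z, hz⟩, hz2, rfl⟩
    · rintro ⟨⟨z', hz'⟩, hz2, rfl⟩
      refine ⟨hz', ?_⟩
      rw [Metric.mem_closedBall, dist_eq_norm]
      exact hz2
  rw [himg]
  refine ⟨h1.image _, ?_⟩
  rw [Set.ncard_image_of_injective _ Subtype.val_injective]
  refine h2.trans ?_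
  rw [← mul_pow]
  apply pow_le_pow_left₀ (by positivity)
  have h3 : 2 * R / (2 * r) = R / r := by field_simp
  have h4 : (1 / r + 1) * (R + 1) = R / r + 1 + (1 / r + R) := by field_simp; ring
  rw [h3, h4]
  have h5 : 0 < 1 / r := by positivity
  linarith

/-- Job D1.  Number of centres near a segment. -/
theorem card_near_seg_u (ρ : ℝ) (hρ : 0 ≤ ρ) : ∃ κ > 0, ∀ C : Set V, NB C → ∀ X : Set V,
    IsPacking C X → ∀ p q : V,
    {x | x ∈ X ∧ ∃ y ∈ segment ℝ p q, ‖x - y‖ ≤ ρ}.Finite ∧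
      ({x | x ∈ X ∧ ∃ y ∈ segment ℝ p q, ‖x - y‖ ≤ ρ}.ncard : ℝ) ≤ κ * (‖p - q‖ + 1) := by
  obtain ⟨κ, hκ, hpack'⟩ := card_packing_u
  refine ⟨3 * (κ * (ρ + 1 + 1) ^ 2), by positivity, ?_⟩
  intro C hN X hX p q
  have hpack := hpack' C hN
  set N : ℕ := ⌈‖q - p‖⌉₊ + 1 with hN
  have hN0 : 0 < N := Nat.succ_pos _
  have hNp : ‖q - p‖ ≤ N := by
    have := Nat.le_ceil ‖q - p‖
    rw [hN]
    push_cast
    linarith
  have hfin : ∀ k : ℕ, (X ∩ Metric.closedBall (p + ((k : ℝ) / N) • (q - p)) (ρ + 1)).Finite :=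
    fun k => (hpack X hX _ _ (by linarith)).1
  classical
  have hsub : {x | x ∈ X ∧ ∃ y ∈ segment ℝ p q, ‖x - y‖ ≤ ρ} ⊆
      (((Finset.range (N + 1)).biUnion fun k => (hfin k).toFinset : Finset V) : Set V) := by
    rintro x ⟨hx, y, hy, hxy⟩
    obtain ⟨k, hk, hk2⟩ := gaa_cover p q N hN0 hNp y hy
    rw [Finset.mem_coe, Finset.mem_biUnion]
    refine ⟨k, hk, ?_⟩
    rw [Set.Finite.mem_toFinset]
    refine ⟨hx, ?_⟩
    rw [Metric.mem_closedBall, dist_eq_norm]
    have h1 : x - (p + ((k : ℝ) / N) • (q - p)) =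
        (x - y) + (y - (p + ((k : ℝ) / N) • (q - p))) := by abel
    rw [h1]
    exact (norm_add_le _ _).trans (add_le_add hxy hk2)
  refine ⟨(Finset.finite_toSet _).subset hsub, ?_⟩
  have h1 : {x | x ∈ X ∧ ∃ y ∈ segment ℝ p q, ‖x - y‖ ≤ ρ}.ncard ≤
      ((Finset.range (N + 1)).biUnion fun k => (hfin k).toFinset).card := by
    rw [← Set.ncard_coe_finset]
    exact Set.ncard_le_ncard hsub (Finset.finite_toSet _)
  have h2 : ((Finset.range (N + 1)).biUnion fun k => (hfin k).toFinset).card ≤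
      ∑ k ∈ Finset.range (N + 1), ((hfin k).toFinset).card := Finset.card_biUnion_le
  have h3 : ∀ k ∈ Finset.range (N + 1), (((hfin k).toFinset).card : ℝ) ≤ κ * (ρ + 1 + 1) ^ 2 := by
    intro k _
    have h4 := (hpack X hX (p + ((k : ℝ) / N) • (q - p)) (ρ + 1) (by linarith)).2
    rwa [Set.ncard_eq_toFinset_card _ (hfin k)] at h4
  have h5 : ({x | x ∈ X ∧ ∃ y ∈ segment ℝ p q, ‖x - y‖ ≤ ρ}.ncard : ℝ) ≤
      ∑ k ∈ Finset.range (N + 1), (((hfin k).toFinset).card : ℝ) := by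
    exact_mod_cast h1.trans h2
  have h6 : ∑ k ∈ Finset.range (N + 1), (((hfin k).toFinset).card : ℝ) ≤
      (N + 1 : ℝ) * (κ * (ρ + 1 + 1) ^ 2) := by
    refine (Finset.sum_le_sum h3).trans ?_
    rw [Finset.sum_const, Finset.card_range, nsmul_eq_mul]
    push_cast
    exact le_refl _
  have h7 : (N + 1 : ℝ) ≤ 3 * (‖p - q‖ + 1) := by
    have h8 := (Nat.ceil_lt_add_one (norm_nonneg (q - p))).le
    rw [norm_sub_rev p q, hN]
    push_cast
    nlinarith [norm_nonneg (q - p)]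
  have h9 : (0 : ℝ) ≤ κ * (ρ + 1 + 1) ^ 2 := by positivity
  calc _ ≤ (N + 1 : ℝ) * (κ * (ρ + 1 + 1) ^ 2) := h5.trans h6
    _ ≤ (3 * (‖p - q‖ + 1)) * (κ * (ρ + 1 + 1) ^ 2) := mul_le_mul_of_nonneg_right h7 h9
    _ = 3 * (κ * (ρ + 1 + 1) ^ 2) * (‖p - q‖ + 1) := by ring

end Pool.Agent.H.MP_929345_co.Ub
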