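import Pool.Agent.H.MP_929345_co.Ub.A
import Pool.Agent.H.MP_929345_co.Pl.GaB

/-! Uniform constants: the gain -/

set_option autoImplicit false

open MeasureTheory Set

namespace Pool.Agent.H.MP_929345_co.Ub

open Pool.Agent.H.MP_929345_co Pool.Agent.H.MP_929345_co.Pl

/-- Job D2.  The gain of a face from a square with few members. -/
theorem gain_par {C : Set V} (hC : IsBody C) {RC κ0 : ℝ} (hRC : 0 < RC)
    (hCR : C ⊆ Metric.closedBall (0 : V) RC) (hκ0 : 0 < κ0)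
    (hnear : ∀ X : Set V, IsPacking C X → ∀ p q : V,
      {x | x ∈ X ∧ ∃ y ∈ segment ℝ p q, ‖x - y‖ ≤ RC}.Finite ∧
      ({x | x ∈ X ∧ ∃ y ∈ segment ℝ p q, ‖x - y‖ ≤ RC}.ncard : ℝ) ≤ κ0 * (‖p - q‖ + 1)) :
    ∀ (W : Set V) (D : ℝ), IsCompact W →
    Convex ℝ W → 1 ≤ D → (∀ x ∈ W, ∀ y ∈ W, ‖x - y‖ ≤ D) → ∀ X : Finset V,
    IsPacking C (X : Set V) → TS C (X : Set V) → (∀ x ∈ X, ∀ c ∈ C, x + c ∈ W) →
    ∀ (y : V) (R : ℝ), 0 ≤ R →
    vl (W ∩ Metric.closedBall y R) +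
        beta C * ({x | x ∈ X ∧ x ∉ Metric.closedBall y R}.ncard : ℝ) ≤
          vl W + (4 * beta C + 12 * beta C * κ0 + 1) * D := by
  classical
  have hβ := gab_beta_nonneg C
  intro W D hW hWc hD hdiam X hpack hTS hXW y R hR
  have hD0 : 0 < D := by linarith
  have hfin : volume W ≠ ⊤ := hW.measure_lt_top.ne
  have hfin' : ∀ S : Set V, S ⊆ W → volume S ≠ ⊤ := fun S hS =>
    (measure_lt_top_mono hS (lt_top_iff_ne_top.2 hfin)).ne
  have hXmem : ∀ x ∈ X, x ∈ W := by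
    intro x hx
    have := hXW x hx 0 (zero_mem hC)
    rwa [add_zero] at this
  -- the regions
  obtain ⟨A1, hA1⟩ : ∃ A : Set V, A = {z | z 0 ≤ y 0 - R} := ⟨_, rfl⟩
  obtain ⟨A2, hA2⟩ : ∃ A : Set V, A = {z | y 0 + R ≤ z 0} := ⟨_, rfl⟩
  obtain ⟨A3, hA3⟩ : ∃ A : Set V, A = {z | y 0 - R ≤ z 0 ∧ z 0 ≤ y 0 + R ∧ y 1 + R ≤ z 1} :=
    ⟨_, rfl⟩
  obtain ⟨A4, hA4⟩ : ∃ A : Set V, A = {z | y 0 - R ≤ z 0 ∧ z 0 ≤ y 0 + R ∧ z 1 ≤ y 1 - R} :=
    ⟨_, rfl⟩
  have c0 : Continuous fun z : V => z 0 := continuous_apply 0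
  have c1 : Continuous fun z : V => z 1 := continuous_apply 1
  have cl1 : IsClosed A1 := by rw [hA1]; exact isClosed_le c0 continuous_const
  have cl2 : IsClosed A2 := by rw [hA2]; exact isClosed_le continuous_const c0
  have cl3 : IsClosed A3 := by
    rw [hA3]
    exact (isClosed_le continuous_const c0).inter ((isClosed_le c0 continuous_const).inter
      (isClosed_le continuous_const c1))
  have cl4 : IsClosed A4 := by
    rw [hA4]
    exact (isClosed_le continuous_const c0).inter ((isClosed_le c0 continuous_const).inter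
      (isClosed_le c1 continuous_const))
  have hlin : ∀ i : Fin 2, IsLinearMap ℝ fun z : V => z i := fun i =>
    ⟨fun _ _ => rfl, fun _ _ => rfl⟩
  have cv1 : Convex ℝ A1 := by rw [hA1]; exact convex_halfSpace_le (hlin 0) _
  have cv2 : Convex ℝ A2 := by rw [hA2]; exact convex_halfSpace_ge (hlin 0) _
  have cv3 : Convex ℝ A3 := by
    rw [hA3]
    exact (convex_halfSpace_ge (hlin 0) _).inter ((convex_halfSpace_le (hlin 0) _).inter
      (convex_halfSpace_ge (hlin 1) _))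
  have cv4 : Convex ℝ A4 := by
    rw [hA4]
    exact (convex_halfSpace_ge (hlin 0) _).inter ((convex_halfSpace_le (hlin 0) _).inter
      (convex_halfSpace_le (hlin 1) _))
  -- volumes
  have hvol : vl (W ∩ Metric.closedBall y R) + (vl (W ∩ A1) + vl (W ∩ A2) + vl (W ∩ A3)
      + vl (W ∩ A4)) ≤ vl W := by
    obtain ⟨S1, hS1⟩ : ∃ S : Set V, S = {z | z 0 < y 0 - R} := ⟨_, rfl⟩
    obtain ⟨S2, hS2⟩ : ∃ S : Set V, S = {z | y 0 + R < z 0} := ⟨_, rfl⟩
    obtain ⟨S3, hS3⟩ : ∃ S : Set V, S = {z | y 1 + R < z 1} := ⟨_, rfl⟩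
    obtain ⟨S4, hS4⟩ : ∃ S : Set V, S = {z | z 1 < y 1 - R} := ⟨_, rfl⟩
    have m1 : MeasurableSet S1 := by
      rw [hS1]; exact (isOpen_lt c0 continuous_const).measurableSet
    have m2 : MeasurableSet S2 := by
      rw [hS2]; exact (isOpen_lt continuous_const c0).measurableSet
    have m3 : MeasurableSet S3 := by
      rw [hS3]; exact (isOpen_lt continuous_const c1).measurableSet
    have m4 : MeasurableSet S4 := by
      rw [hS4]; exact (isOpen_lt c1 continuous_const).measurableSet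
    have w1 : W \ S1 ⊆ W := sdiff_subset
    have w2 : (W \ S1) \ S2 ⊆ W := sdiff_subset.trans w1
    have w3 : ((W \ S1) \ S2) \ S3 ⊆ W := sdiff_subset.trans w2
    have w4 : (((W \ S1) \ S2) \ S3) \ S4 ⊆ W := sdiff_subset.trans w3
    have e1 := gab_split hfin m1
    have e2 := gab_split (hfin' _ w1) m2
    have e3 := gab_split (hfin' _ w2) m3
    have e4 := gab_split (hfin' _ w3) m4
    have f1 : vl (W ∩ A1) ≤ vl (W ∩ S1) := by
      apply gab_null 0 (y 0 - R) (hfin' _ inter_subset_left)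
      rintro z ⟨hzW, hz⟩
      rw [hA1, mem_ofPred_eq] at hz
      rcases hz.lt_or_eq with h | h
      · left; exact ⟨hzW, by rw [hS1]; exact h⟩
      · right; exact h
    have f2 : vl (W ∩ A2) ≤ vl ((W \ S1) ∩ S2) := by
      apply gab_null 0 (y 0 + R) (hfin' _ (inter_subset_left.trans w1))
      rintro z ⟨hzW, hz⟩
      rw [hA2, mem_ofPred_eq] at hz
      rcases hz.lt_or_eq with h | h
      · left
        refine ⟨⟨hzW, ?_⟩, by rw [hS2]; exact h⟩
        rw [hS1, mem_ofPred_eq]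
        linarith
      · right; exact h.symm
    have f3 : vl (W ∩ A3) ≤ vl (((W \ S1) \ S2) ∩ S3) := by
      apply gab_null 1 (y 1 + R) (hfin' _ (inter_subset_left.trans w2))
      rintro z ⟨hzW, hz⟩
      rw [hA3, mem_ofPred_eq] at hz
      rcases hz.2.2.lt_or_eq with h | h
      · left
        refine ⟨⟨⟨hzW, ?_⟩, ?_⟩, by rw [hS3]; exact h⟩
        · rw [hS1, mem_ofPred_eq]; linarith [hz.1]
        · rw [hS2, mem_ofPred_eq]; linarith [hz.2.1]
      · right; exact h.symm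
    have f4 : vl (W ∩ A4) ≤ vl ((((W \ S1) \ S2) \ S3) ∩ S4) := by
      apply gab_null 1 (y 1 - R) (hfin' _ (inter_subset_left.trans w3))
      rintro z ⟨hzW, hz⟩
      rw [hA4, mem_ofPred_eq] at hz
      rcases hz.2.2.lt_or_eq with h | h
      · left
        refine ⟨⟨⟨⟨hzW, ?_⟩, ?_⟩, ?_⟩, by rw [hS4]; exact h⟩
        · rw [hS1, mem_ofPred_eq]; linarith [hz.1]
        · rw [hS2, mem_ofPred_eq]; linarith [hz.2.1]
        · rw [hS3, mem_ofPred_eq]; linarith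
      · right; exact h
    have f5 : vl (W ∩ Metric.closedBall y R) ≤ vl ((((W \ S1) \ S2) \ S3) \ S4) := by
      unfold vl
      apply ENNReal.toReal_mono (hfin' _ w4)
      apply measure_mono
      rintro z ⟨hzW, hz⟩
      rw [mem_closedBall_iff_norm] at hz
      have g0 := abs_le.1 (gab_abs0 hz)
      have g1 := abs_le.1 (gab_abs1 hz)
      simp only [Pi.sub_apply] at g0 g1
      refine ⟨⟨⟨⟨hzW, ?_⟩, ?_⟩, ?_⟩, ?_⟩
      · rw [hS1, mem_ofPred_eq]; linarith [g0.1]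
      · rw [hS2, mem_ofPred_eq]; linarith [g0.2]
      · rw [hS3, mem_ofPred_eq]; linarith [g1.2]
      · rw [hS4, mem_ofPred_eq]; linarith [g1.1]
    linarith
  -- counting
  rcases W.eq_empty_or_nonempty with hWe | ⟨w, hw⟩
  · have hXe : {x | x ∈ X ∧ x ∉ Metric.closedBall y R} = ∅ := by
      ext x
      simp only [mem_ofPred_eq, mem_empty_iff_false, iff_false, not_and]
      intro hx
      have := hXmem x hx
      rw [hWe] at this
      exact absurd this (notMem_empty x)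
    rw [hXe, ncard_empty, Nat.cast_zero, mul_zero, add_zero, hWe, empty_inter]
    have : (0 : ℝ) ≤ (4 * beta C + 12 * beta C * κ0 + 1) * D := by positivity
    linarith
  obtain ⟨Y1, hY1⟩ : ∃ Y : Finset V, Y = X.filter fun x => ∀ c ∈ C, x + c ∈ A1 := ⟨_, rfl⟩
  obtain ⟨Y2, hY2⟩ : ∃ Y : Finset V, Y = X.filter fun x => ∀ c ∈ C, x + c ∈ A2 := ⟨_, rfl⟩
  obtain ⟨Y3, hY3⟩ : ∃ Y : Finset V, Y = X.filter fun x => ∀ c ∈ C, x + c ∈ A3 := ⟨_, rfl⟩
  obtain ⟨Y4, hY4⟩ : ∃ Y : Finset V, Y = X.filter fun x => ∀ c ∈ C, x + c ∈ A4 := ⟨_, rfl⟩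
  have n1 := gab_count hC hW hWc cl1 cv1 X hTS hXW Y1 (by rw [hY1]; exact Finset.filter_subset _ _)
    (by rw [hY1]; intro x hx; exact (Finset.mem_filter.1 hx).2)
  have n2 := gab_count hC hW hWc cl2 cv2 X hTS hXW Y2 (by rw [hY2]; exact Finset.filter_subset _ _)
    (by rw [hY2]; intro x hx; exact (Finset.mem_filter.1 hx).2)
  have n3 := gab_count hC hW hWc cl3 cv3 X hTS hXW Y3 (by rw [hY3]; exact Finset.filter_subset _ _)
    (by rw [hY3]; intro x hx; exact (Finset.mem_filter.1 hx).2)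
  have n4 := gab_count hC hW hWc cl4 cv4 X hTS hXW Y4 (by rw [hY4]; exact Finset.filter_subset _ _)
    (by rw [hY4]; intro x hx; exact (Finset.mem_filter.1 hx).2)
  obtain ⟨L1, hL1⟩ : ∃ L : Set V, L = {x | x ∈ (X : Set V) ∧
    ∃ z ∈ segment ℝ (![y 0 - R, w 1 - D] : V) (![y 0 - R, w 1 + D] : V), ‖x - z‖ ≤ RC} := ⟨_, rfl⟩
  obtain ⟨L2, hL2⟩ : ∃ L : Set V, L = {x | x ∈ (X : Set V) ∧
    ∃ z ∈ segment ℝ (![y 0 + R, w 1 - D] : V) (![y 0 + R, w 1 + D] : V), ‖x - z‖ ≤ RC} := ⟨_, rfl⟩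
  obtain ⟨L3, hL3⟩ : ∃ L : Set V, L = {x | x ∈ (X : Set V) ∧
    ∃ z ∈ segment ℝ (![w 0 - D, y 1 + R] : V) (![w 0 + D, y 1 + R] : V), ‖x - z‖ ≤ RC} := ⟨_, rfl⟩
  obtain ⟨L4, hL4⟩ : ∃ L : Set V, L = {x | x ∈ (X : Set V) ∧
    ∃ z ∈ segment ℝ (![w 0 - D, y 1 - R] : V) (![w 0 + D, y 1 - R] : V), ‖x - z‖ ≤ RC} := ⟨_, rfl⟩
  have l1 := hnear X hpack (![y 0 - R, w 1 - D] : V) (![y 0 - R, w 1 + D] : V)
  have l2 := hnear X hpack (![y 0 + R, w 1 - D] : V) (![y 0 + R, w 1 + D] : V)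
  have l3 := hnear X hpack (![w 0 - D, y 1 + R] : V) (![w 0 + D, y 1 + R] : V)
  have l4 := hnear X hpack (![w 0 - D, y 1 - R] : V) (![w 0 + D, y 1 - R] : V)
  rw [← hL1] at l1
  rw [← hL2] at l2
  rw [← hL3] at l3
  rw [← hL4] at l4
  have hbound : ∀ t : ℝ, t ≤ 2 * D → κ0 * (t + 1) ≤ 3 * κ0 * D := by
    intro t ht
    have : κ0 * (t + 1) ≤ κ0 * (3 * D) := mul_le_mul_of_nonneg_left (by linarith) hκ0.le
    linarith
  have b1 := l1.2.trans (hbound _ (gab_len0 hD0))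
  have b2 := l2.2.trans (hbound _ (gab_len0 hD0))
  have b3 := l3.2.trans (hbound _ (gab_len1 hD0))
  have b4 := l4.2.trans (hbound _ (gab_len1 hD0))
  have hsub : {x | x ∈ X ∧ x ∉ Metric.closedBall y R} ⊆
      ((Y1 : Set V) ∪ Y2 ∪ (Y3 ∪ Y4)) ∪ (L1 ∪ L2 ∪ (L3 ∪ L4)) := by
    rintro x ⟨hxX, hxB⟩
    have hxW := hXmem x hxX
    have hdx := hdiam x hxW w hw
    have d0 := gab_abs0 hdx
    have d1 := gab_abs1 hdx
    simp only [Pi.sub_apply] at d0 d1
    by_contra hcon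
    simp only [mem_union, not_or] at hcon
    obtain ⟨⟨⟨q1, q2⟩, q3, q4⟩, ⟨p1, p2⟩, p3, p4⟩ := hcon
    have r1 : ∀ t : ℝ, |x 0 - (y 0 - R)| ≤ RC → False := by
      intro _ ht
      apply p1
      rw [hL1]
      exact ⟨hxX, gab_near0 hD0 hRC.le d1 ht⟩
    have r2 : ∀ t : ℝ, |x 0 - (y 0 + R)| ≤ RC → False := by
      intro _ ht
      apply p2
      rw [hL2]
      exact ⟨hxX, gab_near0 hD0 hRC.le d1 ht⟩
    have r3 : ∀ t : ℝ, |x 1 - (y 1 + R)| ≤ RC → False := by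
      intro _ ht
      apply p3
      rw [hL3]
      exact ⟨hxX, gab_near1 hD0 hRC.le d0 ht⟩
    have r4 : ∀ t : ℝ, |x 1 - (y 1 - R)| ≤ RC → False := by
      intro _ ht
      apply p4
      rw [hL4]
      exact ⟨hxX, gab_near1 hD0 hRC.le d0 ht⟩
    have hcb : ∀ c ∈ C, |c 0| ≤ RC ∧ |c 1| ≤ RC := by
      intro c hc
      have h1 := hCR hc
      rw [mem_closedBall_zero_iff] at h1
      exact ⟨gab_abs0 h1, gab_abs1 h1⟩
    have s1 : x 0 < y 0 - R → False := by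
      intro hx0
      have h1 : ∃ c ∈ C, x + c ∉ A1 := by
        by_contra h
        push Not at h
        apply q1
        rw [hY1]
        exact Finset.mem_coe.2 (Finset.mem_filter.2 ⟨hxX, h⟩)
      obtain ⟨c, hc, hxc⟩ := h1
      rw [hA1, mem_ofPred_eq, not_le, Pi.add_apply] at hxc
      have h2 := abs_le.1 (hcb c hc).1
      exact r1 0 (abs_le.2 ⟨by linarith [h2.2], by linarith [h2.1]⟩)
    have s2 : y 0 + R < x 0 → False := by
      intro hx0
      have h1 : ∃ c ∈ C, x + c ∉ A2 := by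
        by_contra h
        push Not at h
        apply q2
        rw [hY2]
        exact Finset.mem_coe.2 (Finset.mem_filter.2 ⟨hxX, h⟩)
      obtain ⟨c, hc, hxc⟩ := h1
      rw [hA2, mem_ofPred_eq, not_le, Pi.add_apply] at hxc
      have h2 := abs_le.1 (hcb c hc).1
      exact r2 0 (abs_le.2 ⟨by linarith [h2.2], by linarith [h2.1]⟩)
    have t1 : y 0 - R ≤ x 0 := not_lt.1 s1
    have t2 : x 0 ≤ y 0 + R := not_lt.1 s2
    have s3 : y 1 + R < x 1 → False := by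
      intro hx1
      have h1 : ∃ c ∈ C, x + c ∉ A3 := by
        by_contra h
        push Not at h
        apply q3
        rw [hY3]
        exact Finset.mem_coe.2 (Finset.mem_filter.2 ⟨hxX, h⟩)
      obtain ⟨c, hc, hxc⟩ := h1
      rw [hA3, mem_ofPred_eq, Pi.add_apply, Pi.add_apply] at hxc
      have h2 := abs_le.1 (hcb c hc).1
      have h3 := abs_le.1 (hcb c hc).2
      by_cases u1 : y 0 - R ≤ x 0 + c 0
      · by_cases u2 : x 0 + c 0 ≤ y 0 + R
        · have u3 : ¬ y 1 + R ≤ x 1 + c 1 := fun h => hxc ⟨u1, u2, h⟩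
          rw [not_le] at u3
          exact r3 0 (abs_le.2 ⟨by linarith [h3.2], by linarith [h3.1]⟩)
        · rw [not_le] at u2
          exact r2 0 (abs_le.2 ⟨by linarith [h2.2], by linarith [h2.1]⟩)
      · rw [not_le] at u1
        exact r1 0 (abs_le.2 ⟨by linarith [h2.2], by linarith [h2.1]⟩)
    have s4 : x 1 < y 1 - R → False := by
      intro hx1
      have h1 : ∃ c ∈ C, x + c ∉ A4 := by
        by_contra h
        push Not at h
        apply q4
        rw [hY4]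
        exact Finset.mem_coe.2 (Finset.mem_filter.2 ⟨hxX, h⟩)
      obtain ⟨c, hc, hxc⟩ := h1
      rw [hA4, mem_ofPred_eq, Pi.add_apply, Pi.add_apply] at hxc
      have h2 := abs_le.1 (hcb c hc).1
      have h3 := abs_le.1 (hcb c hc).2
      by_cases u1 : y 0 - R ≤ x 0 + c 0
      · by_cases u2 : x 0 + c 0 ≤ y 0 + R
        · have u3 : ¬ x 1 + c 1 ≤ y 1 - R := fun h => hxc ⟨u1, u2, h⟩
          rw [not_le] at u3
          exact r4 0 (abs_le.2 ⟨by linarith [h3.2], by linarith [h3.1]⟩)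
        · rw [not_le] at u2
          exact r2 0 (abs_le.2 ⟨by linarith [h2.2], by linarith [h2.1]⟩)
      · rw [not_le] at u1
        exact r1 0 (abs_le.2 ⟨by linarith [h2.2], by linarith [h2.1]⟩)
    have t3 : x 1 ≤ y 1 + R := not_lt.1 s3
    have t4 : y 1 - R ≤ x 1 := not_lt.1 s4
    apply hxB
    rw [mem_closedBall_iff_norm]
    apply gab_norm_le hR
    · rw [Pi.sub_apply]
      exact abs_le.2 ⟨by linarith, by linarith⟩
    · rw [Pi.sub_apply]
      exact abs_le.2 ⟨by linarith, by linarith⟩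
  have hcount : ({x | x ∈ X ∧ x ∉ Metric.closedBall y R}.ncard : ℝ) ≤
      (Y1.card + Y2.card + (Y3.card + Y4.card) : ℝ) +
        (L1.ncard + L2.ncard + (L3.ncard + L4.ncard) : ℝ) := by
    have hfinU : (((Y1 : Set V) ∪ Y2 ∪ (Y3 ∪ Y4)) ∪ (L1 ∪ L2 ∪ (L3 ∪ L4))).Finite :=
      ((Y1.finite_toSet.union Y2.finite_toSet).union (Y3.finite_toSet.union Y4.finite_toSet)).union
        ((l1.1.union l2.1).union (l3.1.union l4.1))
    have h1 := ncard_le_ncard hsub hfinU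
    have h2 := ncard_union_le ((Y1 : Set V) ∪ Y2 ∪ (Y3 ∪ Y4)) (L1 ∪ L2 ∪ (L3 ∪ L4))
    have h3 := ncard_union_le ((Y1 : Set V) ∪ Y2) (Y3 ∪ Y4)
    have h4 := ncard_union_le (Y1 : Set V) Y2
    have h5 := ncard_union_le (Y3 : Set V) Y4
    have h6 := ncard_union_le (L1 ∪ L2) (L3 ∪ L4)
    have h7 := ncard_union_le L1 L2
    have h8 := ncard_union_le L3 L4
    rw [ncard_coe_finset, ncard_coe_finset] at h4 h5
    have h9 : {x | x ∈ X ∧ x ∉ Metric.closedBall y R}.ncard ≤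
        (Y1.card + Y2.card + (Y3.card + Y4.card)) +
          (L1.ncard + L2.ncard + (L3.ncard + L4.ncard)) := by omega
    exact_mod_cast h9
  have hmul := mul_le_mul_of_nonneg_left hcount hβ
  have hL : beta C * (L1.ncard + L2.ncard + (L3.ncard + L4.ncard) : ℝ) ≤
      beta C * (12 * κ0 * D) := mul_le_mul_of_nonneg_left (by linarith) hβ
  have hβD : beta C ≤ beta C * D := le_mul_of_one_le_right hβ hD
  nlinarith [hvol, n1, n2, n3, n4, hmul, hL, hβD, hD0]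

theorem gain_u : ∃ κ > 0, ∀ C : Set V, NB C → ∀ (W : Set V) (D : ℝ), IsCompact W →
    Convex ℝ W → 1 ≤ D → (∀ x ∈ W, ∀ y ∈ W, ‖x - y‖ ≤ D) → ∀ X : Finset V,
    IsPacking C (X : Set V) → TS C (X : Set V) → (∀ x ∈ X, ∀ c ∈ C, x + c ∈ W) →
    ∀ (y : V) (R : ℝ), 0 ≤ R →
    vl (W ∩ Metric.closedBall y R) +
        beta C * ({x | x ∈ X ∧ x ∉ Metric.closedBall y R}.ncard : ℝ) ≤ vl W + κ * D := by
  obtain ⟨κ0, hκ0, hnear⟩ := card_near_seg_u 1 zero_le_one
  refine ⟨17 + 48 * κ0, by positivity, ?_⟩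
  intro C hN W D h1 h2 h3 h4 X h5 h6 h7 y R h8
  have h9 := gain_par hN.body one_pos hN.out hκ0 (hnear C hN) W D h1 h2 h3 h4 X h5 h6 h7 y R h8
  have h10 := beta_le_four hN
  have h11 : (4 * beta C + 12 * beta C * κ0 + 1) * D ≤ (17 + 48 * κ0) * D := by
    apply mul_le_mul_of_nonneg_right _ (by linarith)
    nlinarith
  linarith

end Pool.Agent.H.MP_929345_co.Ub
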