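import Pool.Agent.H.MP_929345_co.Ub.A
import Pool.Agent.H.MP_929345_co.Pl.SeA

/-! Uniform constants: two transversal lines -/

set_option autoImplicit false

open MeasureTheory Set

namespace Pool.Agent.H.MP_929345_co.Ub

open Pool.Agent.H.MP_929345_co Pool.Agent.H.MP_929345_co.Pl

/-- Job C3a.  Many centres in a small ball give two transversal separators. -/
theorem pair_lines_u : ∃ κ > 0, ∀ D0 : ℝ, 1 ≤ D0 →
    ∃ s0 > 0, s0 ≤ 1 ∧ ∃ C0 > 0, ∀ C : Set V, NB C → ∀ (z : V) (Xw : Set V), TS C Xw →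
    ∀ F : Finset V, (F : Set V) ⊆ Xw → (∀ x ∈ F, ‖x - z‖ ≤ D0 / 2) → κ * D0 ≤ F.card →
    ∃ b u v : V, ‖u‖ = 1 ∧ ‖v‖ = 1 ∧ s0 ≤ |cr u v| ∧ ‖b - z‖ ≤ C0 ∧
      ∀ x ∈ Xw, ∀ w ∈ interior C, cr u (x + w - b) ≠ 0 ∧ cr v (x + w - b) ≠ 0 := by
  obtain ⟨r, hrr⟩ : ∃ r : ℝ, r = 1 / 2 := ⟨_, rfl⟩
  have hr : 0 < r := by rw [hrr]; norm_num
  refine ⟨4 / r + 2, by positivity, ?_⟩
  intro D0 hD0
  have hD0' : 0 < D0 := by linarith
  have hs0 : 0 < min 1 (r / D0) := lt_min one_pos (by positivity)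
  refine ⟨min 1 (r / D0), hs0, min_le_left _ _, 2 * D0 / min 1 (r / D0), by positivity, ?_⟩
  intro C hN z Xw hTS F hFX hFz hF
  have hC := hN.body
  have hball : Metric.closedBall (0 : V) r ⊆ C := by rw [hrr]; exact hN.inn
  have hev : ∀ f : V, ‖f‖ = 1 → ∀ x ∈ F, |ev f x - ev f z| ≤ D0 := by
    intro f hf x hx
    rw [← ev_sub]
    have h1 := sea_abs_ev f (x - z)
    rw [hf, one_mul] at h1
    have h2 := hFz x hx
    linarith
  have hcard : 2 * D0 / (r / 2) + 1 < (F.card : ℝ) := by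
    have e : 2 * D0 / (r / 2) = 4 / r * D0 := by field_simp; norm_num
    rw [e]
    nlinarith
  -- first separator
  obtain ⟨x, hx, y, hy, hxy⟩ := Finset.one_lt_card.1 (by
    have h1 : (1 : ℝ) < F.card := by
      have : 0 ≤ 2 * D0 / (r / 2) := by positivity
      linarith
    exact_mod_cast h1 : 1 < F.card)
  obtain ⟨f1, t1, hf1, a1, a2, a3⟩ := sea_norm hC hTS (hFX hx) (hFX hy) hxy
  -- second separator
  obtain ⟨x', hx', y', hy', hxy', hclose⟩ := sea_pigeon (F := F) (g := ev f1) (c := ev f1 z)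
    (D := D0) (r := r / 2) (by positivity) hD0'.le (hev f1 hf1) hcard
  obtain ⟨f2, t2, hf2, b1, b2, b3⟩ := sea_norm hC hTS (hFX hx') (hFX hy') hxy'
  have hh1 := sea_hs hC hr hball f1
  have hh2 := sea_hs hC hr hball f2
  rw [hf1, mul_one] at hh1
  rw [hf2, mul_one] at hh2
  have hcr : min 1 (r / D0) ≤ |cr f1 f2| := by
    by_contra hcon
    rw [not_le] at hcon
    have h1 : |cr f1 f2| ≤ r / D0 := (hcon.trans_le (min_le_right _ _)).le
    have h2 : ‖x' - y'‖ ≤ D0 := by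
      have e : x' - y' = (x' - z) - (y' - z) := by abel
      rw [e]
      refine (norm_sub_le _ _).trans ?_
      have := hFz x' hx'
      have := hFz y' hy'
      linarith
    have h3 : |ev f1 (x' - y')| ≤ r / 2 := by
      rw [ev_sub]
      exact hclose
    have h4 := sea_close hf1 hf2 h3 h1 h2
    rw [div_mul_cancel₀ _ hD0'.ne', ev_sub] at h4
    have h5 := (abs_le.1 h4).1
    linarith
  have hcr0 : cr f1 f2 ≠ 0 := by
    intro h0
    rw [h0, abs_zero] at hcr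
    linarith
  -- the values at `z`
  have hτ : ∀ (f : V) (t : ℝ), ‖f‖ = 1 → 0 ≤ hs C f → (∃ x ∈ F, ∃ y ∈ F, ev f x + hs C f ≤ t ∧
      t ≤ ev f y - hs C f) → |t - ev f z| ≤ D0 := by
    rintro f t hf hh ⟨x, hx, y, hy, h1, h2⟩
    have h3 := abs_le.1 (hev f hf x hx)
    have h4 := abs_le.1 (hev f hf y hy)
    rw [abs_le]
    constructor <;> linarith [h3.1, h3.2, h4.1, h4.2]
  have ht1 := hτ f1 t1 hf1 (hs_nonneg hC f1) ⟨x, hx, y, hy, a1, a2⟩
  have ht2 := hτ f2 t2 hf2 (hs_nonneg hC f2) ⟨x', hx', y', hy', b1, b2⟩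
  obtain ⟨τ1, hτ1⟩ : ∃ τ1, τ1 = t1 - ev f1 z := ⟨_, rfl⟩
  obtain ⟨τ2, hτ2⟩ : ∃ τ2, τ2 = t2 - ev f2 z := ⟨_, rfl⟩
  rw [← hτ1] at ht1
  rw [← hτ2] at ht2
  obtain ⟨c, hc⟩ : ∃ c : V, c = (cr f1 f2)⁻¹ • ![τ1 * f2 1 - τ2 * f1 1, f1 0 * τ2 - f2 0 * τ1] :=
    ⟨_, rfl⟩
  have hc1 : ev f1 c = τ1 := by
    rw [hc, ev_smul]
    have : ev f1 ![τ1 * f2 1 - τ2 * f1 1, f1 0 * τ2 - f2 0 * τ1] = cr f1 f2 * τ1 := by
      simp [ev, cr]
      ring
    rw [this, inv_mul_cancel_left₀ hcr0]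
  have hc2 : ev f2 c = τ2 := by
    rw [hc, ev_smul]
    have : ev f2 ![τ1 * f2 1 - τ2 * f1 1, f1 0 * τ2 - f2 0 * τ1] = cr f1 f2 * τ2 := by
      simp [ev, cr]
      ring
    rw [this, inv_mul_cancel_left₀ hcr0]
  have hcn : ‖c‖ ≤ 2 * D0 / min 1 (r / D0) := by
    have h1 : ‖(![τ1 * f2 1 - τ2 * f1 1, f1 0 * τ2 - f2 0 * τ1] : V)‖ ≤ 2 * D0 := by
      have f10 := sea_abs_le f1 0
      have f11 := sea_abs_le f1 1
      have f20 := sea_abs_le f2 0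
      have f21 := sea_abs_le f2 1
      rw [hf1] at f10 f11
      rw [hf2] at f20 f21
      have p1 : |τ1 * f2 1| ≤ D0 := by
        rw [abs_mul]
        calc |τ1| * |f2 1| ≤ D0 * 1 := mul_le_mul ht1 f21 (abs_nonneg _) hD0'.le
          _ = D0 := mul_one _
      have p2 : |τ2 * f1 1| ≤ D0 := by
        rw [abs_mul]
        calc |τ2| * |f1 1| ≤ D0 * 1 := mul_le_mul ht2 f11 (abs_nonneg _) hD0'.le
          _ = D0 := mul_one _
      have p3 : |f1 0 * τ2| ≤ D0 := by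
        rw [abs_mul, mul_comm]
        calc |τ2| * |f1 0| ≤ D0 * 1 := mul_le_mul ht2 f10 (abs_nonneg _) hD0'.le
          _ = D0 := mul_one _
      have p4 : |f2 0 * τ1| ≤ D0 := by
        rw [abs_mul, mul_comm]
        calc |τ1| * |f2 0| ≤ D0 * 1 := mul_le_mul ht1 f20 (abs_nonneg _) hD0'.le
          _ = D0 := mul_one _
      rw [pi_norm_le_iff_of_nonneg (by positivity)]
      intro i
      rw [Real.norm_eq_abs]
      fin_cases i
      · show |τ1 * f2 1 - τ2 * f1 1| ≤ 2 * D0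
        have := abs_sub (τ1 * f2 1) (τ2 * f1 1)
        linarith
      · show |f1 0 * τ2 - f2 0 * τ1| ≤ 2 * D0
        have := abs_sub (f1 0 * τ2) (f2 0 * τ1)
        linarith
    rw [hc, norm_smul, norm_inv, Real.norm_eq_abs, div_eq_inv_mul]
    exact mul_le_mul (inv_anti₀ hs0 hcr) h1 (norm_nonneg _) (inv_nonneg.2 hs0.le)
  have hb1 : ev f1 (z + c) = t1 := by
    rw [ev_add, hc1, hτ1]
    ring
  have hb2 : ev f2 (z + c) = t2 := by
    rw [ev_add, hc2, hτ2]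
    ring
  refine ⟨z + c, pp f1, pp f2, ?_, ?_, ?_, ?_, ?_⟩
  · rw [sea_norm_pp, hf1]
  · rw [sea_norm_pp, hf2]
  · rw [sea_cr_pp_pp]
    exact hcr
  · rw [add_sub_cancel_left]
    exact hcn
  · intro x hx w hw
    exact ⟨sea_miss hC hf1 hb1 a3 x hx w hw, sea_miss hC hf2 hb2 b3 x hx w hw⟩

end Pool.Agent.H.MP_929345_co.Ub
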