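import Pool.Agent.H.MP_929345_co.Ly.Df

/-! Coordinates followed by a linear map of the plane. -/

set_option autoImplicit false

open MeasureTheory Set Filter
open scoped Topology ENNReal

namespace Pool.Agent.H.MP_929345_co.Ub

open Pool.Agent.H.MP_929345_co Pool.Agent.H.MP_929345_co.Pl

variable {d n : ℕ}

/-- `A` followed by `T` on the first factor. -/
noncomputable def cT (T : V ≃L[ℝ] V) (A : (Fin d → ℝ) ≃L[ℝ] V × (Fin n → ℝ)) :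
    (Fin d → ℝ) ≃L[ℝ] V × (Fin n → ℝ) :=
  A.trans (T.prodCongr (ContinuousLinearEquiv.refl ℝ (Fin n → ℝ)))

theorem cT_fst (T : V ≃L[ℝ] V) (A : (Fin d → ℝ) ≃L[ℝ] V × (Fin n → ℝ)) (x : Fin d → ℝ) :
    (cT T A x).1 = T (A x).1 := rfl

theorem cT_snd (T : V ≃L[ℝ] V) (A : (Fin d → ℝ) ≃L[ℝ] V × (Fin n → ℝ)) (x : Fin d → ℝ) :
    (cT T A x).2 = (A x).2 := rfl

theorem cyl_cT (T : V ≃L[ℝ] V) (A : (Fin d → ℝ) ≃L[ℝ] V × (Fin n → ℝ)) (K : Set V) :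
    Cyl (cT T A) (T '' K) = Cyl A K := by
  ext x
  show (cT T A x).1 ∈ T '' K ∧ (∀ i, |(cT T A x).2 i| ≤ 1) ↔ (A x).1 ∈ K ∧ ∀ i, |(A x).2 i| ≤ 1
  rw [cT_fst, cT_snd, T.injective.mem_set_image]

theorem ks_cT (T : V ≃L[ℝ] V) (A : (Fin d → ℝ) ≃L[ℝ] V × (Fin n → ℝ)) (C : Set (Fin d → ℝ)) :
    Ly.Ks (cT T A) C = T '' Ly.Ks A C := by
  ext v
  rw [T.image_eq_preimage_symm]
  have h : (cT T A).symm (v, 0) = A.symm (T.symm v, 0) := by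
    rw [ContinuousLinearEquiv.symm_apply_eq]
    ext i
    · rw [cT_fst, A.apply_symm_apply, T.apply_symm_apply]
    · rw [cT_snd, A.apply_symm_apply]
  show (cT T A).symm (v, 0) ∈ C ↔ A.symm (T.symm v, 0) ∈ C
  rw [h]

end Pool.Agent.H.MP_929345_co.Ub
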