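import Pool.Agent.H.MP_929345_co.Ub.G
import Pool.Agent.H.MP_929345_co.Pl.CyG

/-! Cylinders over normalised planar bodies, uniform constants. -/

set_option autoImplicit false

open MeasureTheory Set Filter
open scoped Topology ENNReal

namespace Pool.Agent.H.MP_929345_co.Ub

open Pool.Agent.H.MP_929345_co Pool.Agent.H.MP_929345_co.Pl

/-- Members close to `c` are inside the enlarged copy. -/
theorem mem_cluster_u (D : ℝ) : ∃ ρ0 : ℝ, 1 ≤ ρ0 ∧ ∀ (d n : ℕ)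
    (A : (Fin d → ℝ) ≃L[ℝ] V × (Fin n → ℝ)) (K : Set V), NB K → ∀ ρ ≥ ρ0, ∀ s c : Fin d → ℝ,
    ‖A s - A c‖ ≤ D → ∀ w ∈ Cyl A K, ∃ v ∈ Cyl A K, s + w = c + ρ • v := by
  obtain ⟨r, hrr⟩ : ∃ r : ℝ, r = 1 / 2 := ⟨_, rfl⟩
  have hr : 0 < r := by rw [hrr]; norm_num
  obtain ⟨W, hWW⟩ : ∃ W : ℝ, W = 1 := ⟨_, rfl⟩
  have hW : 0 < W := by rw [hWW]; exact one_pos
  set r' : ℝ := min r 1 with hr'
  have hr'0 : 0 < r' := lt_min hr one_pos
  refine ⟨max 1 ((|D| + (W + 1)) / r'), le_max_left _ _, ?_⟩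
  intro d n A K hN ρ hρ s c hsc w hw
  have hK := hN.body
  have hrK : Metric.closedBall (0 : V) r ⊆ K := by rw [hrr]; exact hN.inn
  have hWK : K ⊆ Metric.closedBall (0 : V) W := by rw [hWW]; exact hN.out
  have hρ1 : 1 ≤ ρ := (le_max_left _ _).trans hρ
  have hρ0 : 0 < ρ := by linarith
  have hρ2 : (|D| + (W + 1)) / r' ≤ ρ := (le_max_right _ _).trans hρ
  have hAw : ‖A w‖ ≤ W + 1 := by
    rw [Prod.norm_def]
    apply max_le
    · have : ‖(A w).1‖ ≤ W := by simpa using hWK hw.1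
      linarith
    · rw [pi_norm_le_iff_of_nonneg (by linarith)]
      intro i
      rw [Real.norm_eq_abs]
      linarith [hw.2 i]
  have hnorm : ‖A (ρ⁻¹ • (s - c + w))‖ ≤ r' := by
    rw [map_smul, map_add, map_sub, norm_smul, norm_inv, Real.norm_eq_abs, abs_of_pos hρ0,
      inv_mul_le_iff₀ hρ0]
    calc ‖A s - A c + A w‖ ≤ ‖A s - A c‖ + ‖A w‖ := norm_add_le _ _
      _ ≤ |D| + (W + 1) := by linarith [le_abs_self D]
      _ ≤ ρ * r' := by rwa [div_le_iff₀ hr'0] at hρ2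
  refine ⟨ρ⁻¹ • (s - c + w), ⟨?_, ?_⟩, ?_⟩
  · apply hrK
    rw [mem_closedBall_zero_iff]
    exact (norm_fst_le _).trans (hnorm.trans (min_le_left _ _))
  · intro i
    have h1 := norm_le_pi_norm (A (ρ⁻¹ • (s - c + w))).2 i
    rw [Real.norm_eq_abs] at h1
    exact h1.trans ((norm_snd_le _).trans (hnorm.trans (min_le_right _ _)))
  · rw [smul_smul, mul_inv_cancel₀ hρ0.ne', one_smul]
    abel

/-- Sections of `ρ`-separable packings are totally separable in windows. -/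
theorem sec_TS_u (R0 : ℝ) : ∃ ρ0 : ℝ, 1 ≤ ρ0 ∧ ∀ (d n : ℕ)
    (A : (Fin d → ℝ) ≃L[ℝ] V × (Fin n → ℝ)) (K : Set V), NB K → ∀ ρ ≥ ρ0, ∀ S : Set (Fin d → ℝ),
    RhoSep ρ (Cyl A K) S → ∀ (t : Fin n → ℝ) (z : V),
      TS K {x | x ∈ Sec A S t ∧ ‖x - z‖ ≤ R0} := by
  obtain ⟨ρ0, hρ0, hcl'⟩ := mem_cluster_u (2 * R0 + 2)
  refine ⟨ρ0, hρ0, ?_⟩
  intro d n A K hN ρ hρ S hS t z
  have hK := hN.body
  have hcl := hcl' d n A K hN
  rintro x ⟨⟨s, hs, hsx, hst⟩, hxz⟩ y ⟨⟨s', hs', hsy, hst'⟩, hyz⟩ hne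
  have hR0 : 0 ≤ R0 := (norm_nonneg _).trans hxz
  have hC := cyl_isBody A hK
  -- all members of the window are in the cluster of `s`
  have hin : ∀ q ∈ S, ‖(A q).1 - z‖ ≤ R0 → (∀ i, |(A q).2 i - t i| < 1) →
      q ∈ {c' ∈ S | ∀ w ∈ Cyl A K, ∃ v ∈ Cyl A K, c' + w = s + ρ • v} := by
    intro q hq hqz hqt
    refine ⟨hq, hcl ρ hρ q s ?_⟩
    rw [Prod.norm_def]
    apply max_le
    · have e : (A q - A s).1 = ((A q).1 - z) - ((A s).1 - z) := by
        rw [Prod.fst_sub]; abel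
      rw [e]
      refine (norm_sub_le _ _).trans ?_
      rw [hsx]; linarith
    · rw [pi_norm_le_iff_of_nonneg (by linarith)]
      intro i
      rw [Real.norm_eq_abs, Prod.snd_sub, Pi.sub_apply]
      have e : (A q).2 i - (A s).2 i = ((A q).2 i - t i) - ((A s).2 i - t i) := by ring
      rw [e]
      refine (abs_sub _ _).trans ?_
      linarith [hqt i, hst i]
  have hss : s ≠ s' := by
    rintro rfl
    exact hne (hsx.symm.trans hsy)
  have hms := hin s hs (by rw [hsx]; exact hxz) hst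
  obtain ⟨f, hf, τ, f1, f2, f3⟩ := hS s hs s hms
    s' (hin s' hs' (by rw [hsy]; exact hyz) hst') hss
  -- the planar functional
  set F : V × (Fin n → ℝ) →L[ℝ] ℝ := f.comp (A.symm : V × (Fin n → ℝ) →L[ℝ] (Fin d → ℝ)) with hF
  obtain ⟨g, hg⟩ := exists_vec (F.comp (ContinuousLinearMap.inl ℝ V (Fin n → ℝ)))
  have hfF : ∀ (q : Fin d → ℝ) (k : V), f (q + A.symm (k, t - (A q).2))
      = ev g (A q).1 + ev g k + F (0, t) := by
    intro q k
    have e1 : q + A.symm (k, t - (A q).2) = A.symm ((A q).1 + k, t) := by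
      apply A.injective
      rw [map_add, A.apply_symm_apply, A.apply_symm_apply]
      ext i
      · rfl
      · simp
    have e2 : (((A q).1 + k, t) : V × (Fin n → ℝ)) = ((A q).1 + k, 0) + (0, t) := by
      ext i <;> simp
    have e3 : ev g ((A q).1 + k) = F ((A q).1 + k, 0) := by
      rw [hg]; rfl
    rw [← ev_add, e3, ← map_add, ← e2, e1]
    rfl
  have hwy : ∀ q : Fin d → ℝ, (∀ i, |(A q).2 i - t i| < 1) → ∀ i, |(t - (A q).2) i| < 1 := by
    intro q hq i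
    rw [Pi.sub_apply, abs_sub_comm]
    exact hq i
  have hw : ∀ (q : Fin d → ℝ) (k : V), (∀ i, |(A q).2 i - t i| < 1) → k ∈ K →
      A.symm (k, t - (A q).2) ∈ Cyl A K := by
    intro q k hq hk
    exact mem_cyl_of A hk fun i => (hwy q hq i).le
  obtain ⟨kp, hkp, hkp'⟩ := exists_hs hK.compact ⟨0, zero_mem hK⟩ g
  obtain ⟨km, hkm, hkm'⟩ := exists_hs hK.compact ⟨0, zero_mem hK⟩ (-g)
  rw [hs_neg hK, ev_neg_left] at hkm'
  have hup : ∀ q : Fin d → ℝ, (∀ i, |(A q).2 i - t i| < 1) → (∀ w ∈ Cyl A K, f (q + w) ≤ τ) →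
      ev g (A q).1 + Pl.hs K g ≤ τ - F (0, t) := by
    intro q hq h
    have := h _ (hw q kp hq hkp)
    rw [hfF] at this
    linarith
  have hdn : ∀ q : Fin d → ℝ, (∀ i, |(A q).2 i - t i| < 1) → (∀ w ∈ Cyl A K, τ ≤ f (q + w)) →
      τ - F (0, t) ≤ ev g (A q).1 - Pl.hs K g := by
    intro q hq h
    have := h _ (hw q km hq hkm)
    rw [hfF] at this
    linarith
  refine ⟨g, τ - F (0, t), ?_, ?_, ?_, ?_⟩
  · rintro rfl
    have h1 := f1 _ (hw s 0 hst (zero_mem hK))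
    have h2 := f2 _ (hw s' 0 hst' (zero_mem hK))
    rw [hfF] at h1 h2
    rw [ev_zero_left, ev_zero_left] at h1 h2
    have h3 := f3 s hms _ (mem_interior_cyl A (zero_mem_interior hK) (hwy s hst))
    rw [hfF, ev_zero_left, ev_zero_left] at h3
    exact h3 (le_antisymm h1 h2)
  · rw [← hsx]; exact hup s hst f1
  · rw [← hsy]; exact hdn s' hst' f2
  · rintro p ⟨⟨q, hq, hqp, hqt⟩, hpz⟩
    rw [← hqp]
    rcases dich hC f q τ (f3 q (hin q hq (by rw [hqp]; exact hpz) hqt)) with h | h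
    · exact Or.inl (hup q hqt h)
    · exact Or.inr (hdn q hqt h)

/-- The upper bound. -/
theorem cyl_upper_n : ∃ ρ0 : ℝ, 1 ≤ ρ0 ∧ ∀ (d n : ℕ)
    (A : (Fin d → ℝ) ≃L[ℝ] V × (Fin n → ℝ)) (K : Set V), NB K → ∀ ρ ≥ ρ0, ∀ S : Set (Fin d → ℝ),
    IsPacking (Cyl A K) S → RhoSep ρ (Cyl A K) S →
      dens (Cyl A K) S ≤ ENNReal.ofReal (vl K / beta K) := by
  obtain ⟨R0, K', hcount'⟩ := count_bound_u
  obtain ⟨ρ0, hρ0, hsec'⟩ := sec_TS_u R0
  refine ⟨ρ0, hρ0, ?_⟩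
  intro d n A K hN ρ hρ S hS hSρ
  have hK := hN.body
  have hcount := hcount' K hN
  have hsec := hsec' d n A K hN
  have hb := beta_pos hK
  have hvK := vl_pos hK
  have hTS := hsec ρ hρ S hSρ
  have hbound : ∀ R : ℝ, 1 ≤ R → dens (Cyl A K) S ≤ ENNReal.ofReal
      (vl K / beta K * ((1 + K' / 4 / R) * (1 + 1 / R) ^ n)) := by
    intro R hR
    have hR0 : 0 < R := by linarith
    have hwin := fun (z : V × (Fin n → ℝ)) (F : Finset (Fin d → ℝ))
      (hF : ∀ s ∈ F, s ∈ S ∧ ‖A s - z‖ ≤ R) => window_count A hK hcount hS hTS z hR F hF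
    have hM0 : 0 ≤ (4 * R ^ 2 + K' * R) / beta K * (R + 1) ^ n := by
      have := hwin 0 ∅ (by simp)
      simpa using this
    have h := dens_le_window A hK hS hR hM0 hwin
    refine h.trans (le_of_eq ?_)
    congr 1
    rw [pow_add, mul_pow, mul_pow]
    have : (1 + 1 / R) ^ n = (R + 1) ^ n / R ^ n := by
      rw [← div_pow]; congr 1; field_simp
    rw [this]
    field_simp
    ring
  have hlim : Tendsto (fun R : ℝ => ENNReal.ofReal
      (vl K / beta K * ((1 + K' / 4 / R) * (1 + 1 / R) ^ n))) atTop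
      (𝓝 (ENNReal.ofReal (vl K / beta K))) := by
    have h1 : Tendsto (fun R : ℝ => vl K / beta K * ((1 + K' / 4 / R) * (1 + 1 / R) ^ n)) atTop
        (𝓝 (vl K / beta K * ((1 + 0) * (1 + 0) ^ n))) :=
      ((tendsto_const_nhds.add (tendsto_const_nhds.div_atTop tendsto_id)).mul
        ((tendsto_const_nhds.add (tendsto_const_nhds.div_atTop tendsto_id)).pow n)).const_mul _
    simp only [add_zero, one_pow, mul_one] at h1
    exact ENNReal.tendsto_ofReal h1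
  refine ge_of_tendsto hlim ?_
  filter_upwards [eventually_ge_atTop 1] with R hR
  exact hbound R hR

end Pool.Agent.H.MP_929345_co.Ub
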