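import Pool.Agent.H.MP_929345_co.Un.Aub
import Pool.Agent.H.MP_929345_co.Un.Lin
import Pool.Agent.H.MP_929345_co.Pl.Base

/-! Normalisation of planar bodies. -/

set_option autoImplicit false

namespace Pool.Agent.H.MP_929345_co.Ub

open Set MeasureTheory Filter Metric
open Pool.Agent.H.MP_929345_co

theorem norm_body {K : Set (Fin 2 → ℝ)} (h : IsBody K) :
    ∃ T : (Fin 2 → ℝ) ≃L[ℝ] (Fin 2 → ℝ), IsBody (T '' K) ∧
      closedBall 0 (1/2) ⊆ T '' K ∧ T '' K ⊆ closedBall 0 1 := by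
  obtain ⟨A, h1, h2⟩ := Un.exists_frame h
  refine ⟨A, ?_, ?_, ?_⟩
  · have h3 := Un.body_pre A.symm h
    rwa [← A.image_eq_preimage_symm] at h3
  · intro y hy
    rw [mem_closedBall, dist_zero_right] at hy
    refine ⟨A.symm y, h2 y ?_, A.apply_symm_apply y⟩
    rw [Fin.sum_univ_two]
    have a0 := norm_le_pi_norm y 0
    have a1 := norm_le_pi_norm y 1
    rw [Real.norm_eq_abs] at a0 a1
    linarith
  · rintro _ ⟨x, hx, rfl⟩
    rw [mem_closedBall, dist_zero_right]
    refine (pi_norm_le_iff_of_nonneg zero_le_one).2 fun i => ?_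
    rw [Real.norm_eq_abs]
    exact h1 x hx i

end Pool.Agent.H.MP_929345_co.Ub
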