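import Pool.Agent.H.MP_929345_co.Pl.Hs

/-! Normalised planar bodies. -/

set_option autoImplicit false

open MeasureTheory Set

namespace Pool.Agent.H.MP_929345_co.Ub

open Pool.Agent.H.MP_929345_co Pool.Agent.H.MP_929345_co.Pl

/-- A planar body between the squares of half side `1/2` and `1`. -/
structure NB (C : Set V) : Prop where
  body : IsBody C
  inn : Metric.closedBall (0 : V) (1 / 2) ⊆ C
  out : C ⊆ Metric.closedBall (0 : V) 1

end Pool.Agent.H.MP_929345_co.Ub
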