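import Pool.Agent.H.MP_929345_co.Un.Lin
import Pool.Agent.H.MP_929345_co.Pl.CyG
import Pool.Agent.H.MP_929345_co.Ub.Df

/-! The ratio of area and least circumscribed area is invariant. -/

set_option autoImplicit false

namespace Pool.Agent.H.MP_929345_co.Ub

open MeasureTheory Set Filter
open Pool.Agent.H.MP_929345_co Pool.Agent.H.MP_929345_co.Pl

private lemma ra_vec (a : V) (T : V ≃L[ℝ] V) : ∃ a' : V, ∀ x, ev a' x = ev a (T x) := by
  obtain ⟨g, hg⟩ := exists_vec (((a 0) • (ContinuousLinearMap.proj 0 : V →L[ℝ] ℝ) +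
    (a 1) • (ContinuousLinearMap.proj 1 : V →L[ℝ] ℝ)).comp (T : V →L[ℝ] V))
  refine ⟨g, fun x => ?_⟩
  rw [hg]
  rfl

private lemma ra_cr {a b a' b' : V} {T : V ≃L[ℝ] V} (ha : ∀ x, ev a' x = ev a (T x))
    (hb : ∀ x, ev b' x = ev b (T x)) (h : cr a b ≠ 0) : cr a' b' ≠ 0 := by
  intro h0
  have key : ∀ x : V, ev a' x = 0 → ev b' x = 0 → x = 0 := by
    intro x h1 h2
    rw [ha] at h1
    rw [hb] at h2
    unfold ev at h1 h2
    unfold cr at h
    have e0 : (T x) 0 = 0 := by
      have : (a 0 * b 1 - a 1 * b 0) * (T x) 0 = 0 := by linear_combination b 1 * h1 - a 1 * h2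
      exact (mul_eq_zero.1 this).resolve_left h
    have e1 : (T x) 1 = 0 := by
      have : (a 0 * b 1 - a 1 * b 0) * (T x) 1 = 0 := by linear_combination a 0 * h2 - b 0 * h1
      exact (mul_eq_zero.1 this).resolve_left h
    have e : T x = 0 := by
      ext i
      fin_cases i
      · exact e0
      · exact e1
    exact T.injective (by rw [e, map_zero])
  unfold cr at h0
  have k1 := key ![a' 1, -a' 0] (by simp [ev]; ring) (by simp [ev]; linarith)
  have k2 := key ![b' 1, -b' 0] (by simp [ev]; linarith) (by simp [ev]; ring)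
  have a1 : a' 1 = 0 := by simpa using congrFun k1 0
  have a0 : a' 0 = 0 := by simpa using congrFun k1 1
  have b1 : b' 1 = 0 := by simpa using congrFun k2 0
  have b0 : b' 0 = 0 := by simpa using congrFun k2 1
  have k3 := key ![1, 0] (by simp [ev, a0]) (by simp [ev, b0])
  have := congrFun k3 0
  simp at this

private lemma ra_le {K : Set V} (hK : IsBody K) (T : V ≃L[ℝ] V) :
    vl (T '' K) / beta (T '' K) ≤ vl K / beta K := by
  have hTK : IsBody (T '' K) := by
    have h3 := Un.body_pre T.symm hK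
    rwa [← T.image_eq_preimage_symm] at h3
  obtain ⟨κ, hκ0, hκT, hκ⟩ := Un.vol_pre T.symm
  have hk : 0 < κ.toReal := ENNReal.toReal_pos hκ0 hκT
  have hvl : ∀ S : Set V, vl (T '' S) = κ.toReal * vl S := by
    intro S
    unfold vl
    rw [T.image_eq_preimage_symm, hκ, ENNReal.toReal_mul]
  have hb := beta_pos hK
  have hb' := beta_pos hTK
  have hle : κ.toReal * beta K ≤ beta (T '' K) := by
    apply le_csInf
    · exact ⟨_, ![1, 0], ![0, 1], by simp [cr], rfl⟩
    rintro _ ⟨a, b, hab, rfl⟩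
    obtain ⟨a', ha⟩ := ra_vec a T
    obtain ⟨b', hb⟩ := ra_vec b T
    have hs1 : ∀ {c c' : V}, (∀ x, ev c' x = ev c (T x)) → Pl.hs (T '' K) c = Pl.hs K c' := by
      intro c c' hc
      unfold Pl.hs
      rw [image_image]
      congr 1
      exact image_congr fun x _ => (hc x).symm
    have e : Par (T '' K) a b = T '' Par K a' b' := by
      ext x
      constructor
      · rintro ⟨h1, h2⟩
        refine ⟨T.symm x, ⟨?_, ?_⟩, T.apply_symm_apply x⟩
        · rw [ha, T.apply_symm_apply, ← hs1 ha]; exact h1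
        · rw [hb, T.apply_symm_apply, ← hs1 hb]; exact h2
      · rintro ⟨y, ⟨h1, h2⟩, rfl⟩
        refine ⟨?_, ?_⟩
        · rw [← ha, hs1 ha]; exact h1
        · rw [← hb, hs1 hb]; exact h2
    rw [e, hvl]
    refine mul_le_mul_of_nonneg_left (csInf_le ⟨0, ?_⟩ ⟨a', b', ra_cr ha hb hab, rfl⟩) hk.le
    rintro _ ⟨_, _, _, rfl⟩
    exact ENNReal.toReal_nonneg
  rw [hvl, div_le_div_iff₀ hb' hb]
  have h0 : 0 ≤ vl K := ENNReal.toReal_nonneg
  calc κ.toReal * vl K * beta K = vl K * (κ.toReal * beta K) := by ring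
    _ ≤ vl K * beta (T '' K) := mul_le_mul_of_nonneg_left hle h0

theorem ratio_inv {K : Set V} (hK : IsBody K) (T : V ≃L[ℝ] V) :
    vl (T '' K) / beta (T '' K) = vl K / beta K := by
  refine le_antisymm (ra_le hK T) ?_
  have hTK : IsBody (T '' K) := by
    have h3 := Un.body_pre T.symm hK
    rwa [← T.image_eq_preimage_symm] at h3
  have h := ra_le hTK T.symm
  have e : T.symm '' (T '' K) = K := by
    rw [image_image]
    simp
  rwa [e] at h

end Pool.Agent.H.MP_929345_co.Ub
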