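import Pool.Agent.H.MP_929345_co.Ub.C
import Pool.Agent.H.MP_929345_co.Pl.SeE

/-! Uniform constants: choice of a cross at a site -/

set_option autoImplicit false

open MeasureTheory Set

namespace Pool.Agent.H.MP_929345_co.Ub

open Pool.Agent.H.MP_929345_co Pool.Agent.H.MP_929345_co.Pl

private lemma see_vl_ball (x : V) {r : ℝ} (hr : 0 ≤ r) : vl (Metric.closedBall x r) = (2 * r) ^ 2 := by
  unfold vl
  rw [Real.volume_pi_closedBall x hr]
  simp only [Fintype.card_fin]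
  rw [ENNReal.toReal_ofReal (by positivity)]

private lemma see_strip_meas (l : V × V) (η : ℝ) : MeasurableSet {z : V | |cr l.2 (z - l.1)| ≤ η} := by
  have : IsClosed {z : V | |cr l.2 (z - l.1)| ≤ η} := by
    apply isClosed_le _ continuous_const
    unfold cr
    fun_prop
  exact this.measurableSet

private lemma see_bad (F : Finset (V × V)) {η ρ : ℝ} (hρ : 0 ≤ ρ) (hη : 0 ≤ η) (x : V)
    (hF : ∀ l ∈ F, ‖l.2‖ = 1) :
    vl (Metric.closedBall x ρ ∩ ⋃ l ∈ F, {z : V | |cr l.2 (z - l.1)| ≤ η}) ≤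
      F.card * (2 * ρ * (2 * η)) := by
  have h1 : Metric.closedBall x ρ ∩ (⋃ l ∈ F, {z : V | |cr l.2 (z - l.1)| ≤ η}) =
      ⋃ l ∈ F, (Metric.closedBall x ρ ∩ {z : V | |cr l.2 (z - l.1)| ≤ η}) := by
    rw [inter_iUnion₂]
  rw [h1]
  have hfin : ∀ l : V × V, volume (Metric.closedBall x ρ ∩ {z : V | |cr l.2 (z - l.1)| ≤ η}) ≠ ⊤ := by
    intro l
    exact ((measure_mono inter_subset_left).trans_lt measure_closedBall_lt_top).ne
  have h2 : volume (⋃ l ∈ F, (Metric.closedBall x ρ ∩ {z : V | |cr l.2 (z - l.1)| ≤ η})) ≤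
      ∑ l ∈ F, volume (Metric.closedBall x ρ ∩ {z : V | |cr l.2 (z - l.1)| ≤ η}) :=
    measure_biUnion_finset_le _ _
  have h3 : vl (⋃ l ∈ F, (Metric.closedBall x ρ ∩ {z : V | |cr l.2 (z - l.1)| ≤ η})) ≤
      ∑ l ∈ F, vl (Metric.closedBall x ρ ∩ {z : V | |cr l.2 (z - l.1)| ≤ η}) := by
    unfold vl
    rw [← ENNReal.toReal_sum (fun l _ => hfin l)]
    apply ENNReal.toReal_mono _ h2
    exact (ENNReal.sum_lt_top.2 fun l _ => (hfin l).lt_top).ne
  refine h3.trans ?_
  calc ∑ l ∈ F, vl (Metric.closedBall x ρ ∩ {z : V | |cr l.2 (z - l.1)| ≤ η})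
      ≤ ∑ l ∈ F, 2 * ρ * (2 * η) := Finset.sum_le_sum fun l hl => vl_strip (hF l hl) hρ hη
    _ = F.card * (2 * ρ * (2 * η)) := by rw [Finset.sum_const, nsmul_eq_mul]

/-- Job C3e.  Choice of a cross at a site. -/
theorem site_choice_u : ∃ s0 > 0, s0 ≤ 1 ∧ ∃ D0 > 0,
    ∀ (m : ℕ) (c σ : ℝ), 0 < c → c ≤ 1 → 0 < σ → ∃ η' > 0, ∃ G0 : ℝ, ∀ C : Set V, NB C →
    ∀ G ≥ G0,
    ∀ X : Set V, IsPacking C X → ∀ R : ℝ, (∀ z, TS C {x | x ∈ X ∧ ‖x - z‖ ≤ R}) →
    ∀ (x : V) (L : ℝ), σ * G ≤ L → 2 * L ≤ R →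
    ∀ F : Finset (V × V), F.card ≤ m → (∀ l ∈ F, ‖l.2‖ = 1) →
    ∃ b u v : V, ‖b - x‖ ≤ c * L ∧ ‖u‖ = 1 ∧ ‖v‖ = 1 ∧ s0 ≤ |cr u v| ∧
      (∀ l ∈ F, η' * G ≤ |cr l.2 (b - l.1)|) ∧
      ((∀ y ∈ X, ‖y - b‖ ≤ R - 2 * L → ∀ w ∈ interior C,
          cr u (y + w - b) ≠ 0 ∧ cr v (y + w - b) ≠ 0) ∨
        beta C * (X ∩ Metric.closedBall x (c * L / 2 - D0)).ncard ≤
          vl (Metric.closedBall x (c * L / 2 - D0)) / 4) := by
  obtain ⟨κ, hκ, hpair⟩ := pair_lines_u
  obtain ⟨kp, hkp, hcard'⟩ := card_packing_u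
  obtain ⟨B, hBB⟩ : ∃ B : ℝ, B = 4 := ⟨_, rfl⟩
  have hB0 : 0 < B := by rw [hBB]; norm_num
  set D0 : ℝ := max 1 (64 * B * κ) with hD0
  have hD1 : 1 ≤ D0 := le_max_left _ _
  have hD2' : 64 * B * κ ≤ D0 := le_max_right _ _
  have hDpos : 0 < D0 := by linarith
  obtain ⟨s0, hs0, hs1, C0, hC0, hp'⟩ := hpair D0 hD1
  refine ⟨s0, hs0, hs1, D0, hDpos, ?_⟩
  intro m c σ hc hc1 hσ
  set N : ℝ := kp * (D0 / 2 + 1) ^ 2 with hN
  have hNpos : 0 < N := by positivity
  set η' : ℝ := min (c * σ / (64 * (m + 1))) (D0 ^ 2 * c * σ / (256 * B * N * (m + 1))) with hη'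
  have hη'pos : 0 < η' := by
    rw [hη']
    apply lt_min <;> positivity
  have hη1 : η' * (64 * (m + 1)) ≤ c * σ := by
    have := min_le_left (c * σ / (64 * ((m : ℝ) + 1))) (D0 ^ 2 * c * σ / (256 * B * N * (m + 1)))
    rw [← hη', le_div_iff₀ (by positivity)] at this
    exact this
  have hη2' : η' * (256 * B * N * (m + 1)) ≤ D0 ^ 2 * c * σ := by
    have := min_le_right (c * σ / (64 * ((m : ℝ) + 1))) (D0 ^ 2 * c * σ / (256 * B * N * (m + 1)))
    rw [← hη', le_div_iff₀ (by positivity)] at this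
    exact this
  set G0 : ℝ := max (max 1 (2 * C0 / (c * σ))) (max (2 * C0 / η') (16 * D0 / (c * σ))) with hG0
  refine ⟨η', hη'pos, G0, ?_⟩
  intro C hN G hG X hX R hTS x L hL hLR F hFm hFn
  have hC := hN.body
  have hcard := hcard' C hN
  have hp := hp' C hN
  have hβ : 0 < beta C := (vl_pos hC).trans_le (vl_le_beta hC)
  have hβB : beta C ≤ B := by rw [hBB]; exact beta_le_four hN
  set β := beta C with hβdef
  have hD2 : 64 * β * κ ≤ D0 := by
    refine le_trans ?_ hD2'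
    gcongr
  have hη2 : η' * (256 * β * N * (m + 1)) ≤ D0 ^ 2 * c * σ := by
    refine le_trans ?_ hη2'
    gcongr
  have hG1 : 1 ≤ G := ((le_max_left _ _).trans (le_max_left _ _)).trans hG
  have hG2 : 2 * C0 / (c * σ) ≤ G := ((le_max_right _ _).trans (le_max_left _ _)).trans hG
  have hG3 : 2 * C0 / η' ≤ G := ((le_max_left _ _).trans (le_max_right _ _)).trans hG
  have hG4 : 16 * D0 / (c * σ) ≤ G := ((le_max_right _ _).trans (le_max_right _ _)).trans hG
  have hGpos : 0 < G := by linarith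
  have hLpos : 0 < L := lt_of_lt_of_le (by positivity) hL
  rw [div_le_iff₀ (by positivity)] at hG2 hG3 hG4
  have hcL : c * σ * G ≤ c * L := by
    calc c * σ * G = c * (σ * G) := by ring
      _ ≤ c * L := by gcongr
  have e2 : 2 * C0 ≤ c * L := by linarith
  have e3 : 2 * C0 ≤ η' * G := by linarith
  have e4 : 16 * D0 ≤ c * L := by linarith
  have hcL1 : c * L ≤ L := by
    calc c * L ≤ 1 * L := by gcongr
      _ = L := one_mul L
  set η : ℝ := η' * G with hη
  have hηpos : 0 < η := by positivity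
  have hm0 : (0 : ℝ) ≤ m := Nat.cast_nonneg m
  have e5 : 64 * (m + 1) * η ≤ c * L := by
    calc 64 * (m + 1) * η = η' * (64 * (m + 1)) * G := by rw [hη]; ring
      _ ≤ c * σ * G := by gcongr
      _ ≤ c * L := hcL
  have e6 : 256 * β * N * (m + 1) * η ≤ D0 ^ 2 * (c * L) := by
    calc 256 * β * N * (m + 1) * η = η' * (256 * β * N * (m + 1)) * G := by rw [hη]; ring
      _ ≤ D0 ^ 2 * c * σ * G := by gcongr
      _ = D0 ^ 2 * (c * σ * G) := by ring
      _ ≤ D0 ^ 2 * (c * L) := by gcongr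
  set ρ : ℝ := c * L / 2 with hρ
  have hρpos : 0 < ρ := by positivity
  set Bd : Set V := ⋃ l ∈ F, {z : V | |cr l.2 (z - l.1)| ≤ 2 * η} with hBd
  have hBdm : MeasurableSet Bd := by
    rw [hBd]
    exact Finset.measurableSet_biUnion _ fun l _ => see_strip_meas l _
  have hFc : (F.card : ℝ) ≤ m := by exact_mod_cast hFm
  have hbad : vl (Metric.closedBall x ρ ∩ Bd) ≤ m * (2 * ρ * (2 * (2 * η))) := by
    refine (see_bad F hρpos.le (by positivity) x hFn).trans ?_
    gcongr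
  have hball : vl (Metric.closedBall x ρ) = (2 * ρ) ^ 2 := see_vl_ball x hρpos.le
  have hnotBd : ∀ z, z ∉ Bd → ∀ l ∈ F, 2 * η < |cr l.2 (z - l.1)| := by
    intro z hz l hl
    by_contra hcon
    push Not at hcon
    apply hz
    rw [hBd]
    simp only [mem_iUnion]
    exact ⟨l, hl, hcon⟩
  by_cases hcase : ∃ z ∈ Metric.closedBall x ρ, z ∉ Bd ∧
      κ * D0 ≤ ((X ∩ Metric.closedBall z (D0 / 2)).ncard : ℝ)
  · obtain ⟨z, hz, hzB, hzc⟩ := hcase
    have hfin := (hcard X hX z (D0 / 2) (by positivity)).1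
    have hzx : ‖z - x‖ ≤ ρ := by
      rw [← dist_eq_norm]; exact hz
    obtain ⟨b, u, v, hu, hv, huv, hb, hsep⟩ := hp z {x' | x' ∈ X ∧ ‖x' - z‖ ≤ R} (hTS z)
      hfin.toFinset (by
        intro y hy
        rw [Set.Finite.coe_toFinset] at hy
        refine ⟨hy.1, ?_⟩
        have : ‖y - z‖ ≤ D0 / 2 := by rw [← dist_eq_norm]; exact hy.2
        linarith) (by
        intro y hy
        rw [Set.Finite.mem_toFinset] at hy
        rw [← dist_eq_norm]; exact hy.2) (by
        rw [← Set.ncard_eq_toFinset_card _ hfin]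
        exact hzc)
    refine ⟨b, u, v, ?_, hu, hv, huv, ?_, Or.inl ?_⟩
    · have : b - x = (b - z) + (z - x) := by abel
      rw [this]
      refine (norm_add_le _ _).trans ?_
      rw [hρ] at hzx
      linarith
    · intro l hl
      have h1 := hnotBd z hzB l hl
      have h2 : cr l.2 (b - l.1) = cr l.2 (z - l.1) + cr l.2 (b - z) := by
        rw [← cr_add_right]; congr 1; abel
      have h3 := abs_cr_le l.2 (b - z)
      rw [hFn l hl, one_mul] at h3
      have h4 : |cr l.2 (z - l.1)| ≤ |cr l.2 (b - l.1)| + |cr l.2 (b - z)| := by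
        have : cr l.2 (z - l.1) = cr l.2 (b - l.1) - cr l.2 (b - z) := by rw [h2]; ring
        rw [this]
        exact abs_sub _ _
      linarith
    · intro y hy hyb w hw
      apply hsep y _ w hw
      refine ⟨hy, ?_⟩
      have : y - z = (y - b) + (b - z) := by abel
      rw [this]
      refine (norm_add_le _ _).trans ?_
      linarith
  · push Not at hcase
    have hex : ∃ z ∈ Metric.closedBall x ρ, z ∉ Bd := by
      by_contra hcon
      push Not at hcon
      have h1 : Metric.closedBall x ρ ∩ Bd = Metric.closedBall x ρ :=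
        inter_eq_left.2 hcon
      rw [h1, hball] at hbad
      have h2 : (m : ℝ) * η < ρ / 2 := by
        have h5 : 0 < c * L := by positivity
        have h6 : 64 * ((m : ℝ) + 1) * η = 64 * (m * η) + 64 * η := by ring
        rw [h6] at e5
        rw [hρ]
        have h7 : 0 ≤ (m : ℝ) * η := by positivity
        linarith
      have h3 : (m : ℝ) * (2 * ρ * (2 * (2 * η))) = 8 * ρ * (m * η) := by ring
      have h4 : 8 * ρ * (m * η) < 8 * ρ * (ρ / 2) := by gcongr
      have h5 : 8 * ρ * (ρ / 2) = (2 * ρ) ^ 2 := by ring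
      linarith
    obtain ⟨z, hz, hzB⟩ := hex
    have hzx : ‖z - x‖ ≤ ρ := by
      rw [← dist_eq_norm]; exact hz
    refine ⟨z, ![1, 0], ![0, 1], ?_, ?_, ?_, ?_, ?_, Or.inr ?_⟩
    · rw [hρ] at hzx; linarith
    · rw [Pi.norm_def]; simp [Fin.univ_succ]
    · rw [Pi.norm_def]; simp [Fin.univ_succ]
    · simp [cr]; exact hs1
    · intro l hl
      have h1 := hnotBd z hzB l hl
      linarith
    · have hcnt := count_by_area (X := X) (x := x) (ρ := ρ) (D0 := D0) hDpos
        (by rw [hρ]; linarith) (hcard X hX x ρ hρpos.le).1 hBdm (n0 := κ * D0) (N := N)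
        (by positivity) hNpos.le (fun z hz hzB => (hcase z hz hzB).le)
        (fun z => (hcard X hX z (D0 / 2) (by positivity)).2)
      set n : ℝ := ((X ∩ Metric.closedBall x (ρ - D0)).ncard : ℝ) with hn
      have hr : 0 ≤ ρ - D0 := by rw [hρ]; linarith
      rw [see_vl_ball x hr]
      have h1 : n * D0 ^ 2 ≤ κ * D0 * (2 * ρ) ^ 2 + N * (m * (2 * ρ * (2 * (2 * η)))) :=
        hcnt.trans (by gcongr)
      have h2 : 2 * ρ = c * L := by rw [hρ]; ring
      rw [h2] at h1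
      have h3 : β * (n * D0 ^ 2) ≤ D0 ^ 2 * ((c * L) ^ 2 / 32) := by
        have a1 : β * (κ * D0 * (c * L) ^ 2) ≤ D0 ^ 2 * ((c * L) ^ 2 / 64) := by
          have h8 : 64 * β * κ * D0 ≤ D0 * D0 := by gcongr
          calc β * (κ * D0 * (c * L) ^ 2) = 64 * β * κ * D0 * ((c * L) ^ 2 / 64) := by ring
            _ ≤ D0 * D0 * ((c * L) ^ 2 / 64) := by gcongr
            _ = _ := by ring
        have a2 : β * (N * (m * (c * L * (2 * (2 * η))))) ≤ D0 ^ 2 * ((c * L) ^ 2 / 64) := by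
          have b1 : 256 * β * N * m * η ≤ 256 * β * N * (m + 1) * η := by
            gcongr; linarith
          have b2 : 256 * β * N * m * η * (c * L) ≤ D0 ^ 2 * (c * L) * (c * L) := by
            have : 0 ≤ c * L := by positivity
            exact mul_le_mul_of_nonneg_right (b1.trans e6) this
          calc β * (N * (m * (c * L * (2 * (2 * η))))) = 256 * β * N * m * η * (c * L) / 64 := by ring
            _ ≤ D0 ^ 2 * (c * L) * (c * L) / 64 := by gcongr
            _ = _ := by ring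
        calc β * (n * D0 ^ 2) ≤ β * (κ * D0 * (c * L) ^ 2 + N * (m * (c * L * (2 * (2 * η))))) := by
              gcongr
          _ ≤ _ := by rw [mul_add]; linarith
      have h4 : β * n ≤ (c * L) ^ 2 / 32 := by
        have : D0 ^ 2 * (β * n) ≤ D0 ^ 2 * ((c * L) ^ 2 / 32) := by linarith
        exact le_of_mul_le_mul_left this (by positivity)
      have h5 : 0 < c * L := by positivity
      have h6 : 2 * (ρ - D0) ≥ 7 / 8 * (c * L) := by rw [hρ]; linarith
      have h7 : (7 / 8 * (c * L)) ^ 2 ≤ (2 * (ρ - D0)) ^ 2 := by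
        apply pow_le_pow_left₀ (by positivity) h6
      have h8 : (7 / 8 * (c * L)) ^ 2 = 49 / 64 * (c * L) ^ 2 := by ring
      have h9 : 0 ≤ (c * L) ^ 2 := sq_nonneg _
      linarith

end Pool.Agent.H.MP_929345_co.Ub
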