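import Pool.Agent.H.MP_929345_co.Ub.E
import Pool.Agent.H.MP_929345_co.Pl.CtA
import Pool.Agent.H.MP_929345_co.Pl.CtC

/-! Uniform constants: existence of the structure; members hit by it -/

set_option autoImplicit false

open MeasureTheory Set

namespace Pool.Agent.H.MP_929345_co.Ub

open Pool.Agent.H.MP_929345_co Pool.Agent.H.MP_929345_co.Pl

/-- Job D6.  Existence of the structure (assembly of part C). -/
theorem exists_str_u : ∃ K κ G0 : ℝ, 1 ≤ K ∧ 0 < κ ∧ 1 ≤ G0 ∧ ∀ C : Set V, NB C →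
    ∀ G ≥ G0, ∀ X : Set V, IsPacking C X → (∀ z, TS C {x | x ∈ X ∧ ‖x - z‖ ≤ 16 * K * G}) →
    ∃ (I : Type) (_ : Countable I) (P Q : I × Fin 3 → V) (y : I → V) (ry : I → ℝ)
      (poor : Set I), IsStr C X P Q y ry poor K κ G := by
  obtain ⟨RC, hRR⟩ : ∃ RC : ℝ, RC = 1 := ⟨_, rfl⟩
  have hRC0 : 0 < RC := by rw [hRR]; exact one_pos
  obtain ⟨K0, κ, G0, hK0, hκ, hG0, hmain'⟩ := cro_exists_u hRC0.le
  refine ⟨2 * K0 + 2, κ, max G0 (max RC 1), by linarith, hκ,
    le_trans (le_max_right _ _) (le_max_right _ _), ?_⟩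
  intro C hN G hG X hX hTS
  have hC := hN.body
  have hRC : C ⊆ Metric.closedBall (0 : V) RC := by rw [hRR]; exact hN.out
  have hmain := hmain' C hN
  have hG1 : G0 ≤ G := le_trans (le_max_left _ _) hG
  have hG2 : RC ≤ G := le_trans (le_trans (le_max_left _ _) (le_max_right _ _)) hG
  have hG3 : 1 ≤ G := le_trans (le_trans (le_max_right _ _) (le_max_right _ _)) hG
  have hKG : 0 < K0 * G := by positivity
  have hGK : G ≤ K0 * G := by nlinarith
  have hTS0 : ∀ z, TS C {x | x ∈ X ∧ ‖x - z‖ ≤ 8 * K0 * G} := by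
    intro z
    refine cta_mono (hTS z) ?_
    rintro x ⟨hx, hxz⟩
    refine ⟨hx, hxz.trans ?_⟩
    nlinarith
  obtain ⟨I, hI, b, d, tp, y, ry, poor, L0, L1, T, δ, a1, r, h, hr, hδ, hL, hby, hry, hsep, hreal,
    hfew⟩ := hmain G hG1 X hX hTS0
  obtain ⟨ord, hord⟩ := exists_injective_nat (I × Fin 4)
  obtain ⟨len, he⟩ := exists_ext h ord hord
  have hne : ∃ i : I, ∃ k : Fin 4, True := by
    obtain ⟨i, k, _⟩ := h.blk 0 (fun _ => T) (by
      rw [zero_sub, norm_neg, pi_norm_const, Real.norm_eq_abs]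
      exact le_abs_self T)
    exact ⟨i, k, trivial⟩
  obtain ⟨i0, k0, -⟩ := hne
  have hL1 : 0 < L1 := lt_of_lt_of_le h.L0pos ((h.tp0 i0 k0).trans (h.tp1 i0 k0))
  have hTK : T ≤ K0 * G := by linarith
  have hT0 := h.Tpos
  have hlen : ∀ A : I × Fin 4, len A ≤ K0 * G := by
    intro A
    have h1 := he.le A
    have h2 := h.tp1 A.1 A.2
    linarith
  have hlen0 : ∀ A : I × Fin 4, 0 ≤ len A := by
    intro A
    have h1 := he.ge A
    have h2 := h.tp0 A.1 A.2
    have h3 := h.L0pos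
    linarith
  have hpt : ∀ (i : I) (k : Fin 4), ‖b i + len (i, k) • d i k - y i‖ ≤ (2 * K0 + 2) * G := by
    intro i k
    have e : b i + len (i, k) • d i k - y i = (b i - y i) + len (i, k) • d i k := by abel
    rw [e]
    refine (norm_add_le _ _).trans ?_
    rw [norm_smul, h.dn i k, mul_one, Real.norm_eq_abs, abs_of_nonneg (hlen0 _)]
    have h1 := hby i
    have h2 := hlen (i, k)
    nlinarith
  have hpt0 : ∀ i : I, ‖b i - y i‖ ≤ (2 * K0 + 2) * G := by
    intro i
    have h1 := hby i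
    nlinarith
  refine ⟨I, hI, oP b d len, oQ b d len, y, ry, poor, ?_⟩
  exact
    { hK := by linarith
      hκ := hκ
      hG := hG3
      hT := by
        have h1 := ext_isT h he
        exact ⟨h1.ne, h1.lf, h1.t1, h1.t2P, h1.t2Q, fun x y hxy => (h1.bd x y hxy).trans
          (by nlinarith)⟩
      good := good_faces h he hRC hRC0.le hr hδ
      real := by
        intro i hi k x hx w hw hmem
        obtain ⟨A, hA, t, ht0, ht, hxw⟩ := (mem_obj h he (i, k) (x + w)).1 hmem
        have hAi : A.1 = i := congrArg Prod.fst hA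
        rw [hAi] at hxw
        have hwC : ‖w‖ ≤ RC := by
          have := hRC (interior_subset hw)
          rwa [mem_closedBall_zero_iff] at this
        have hxb : ‖x - b i‖ ≤ 4 * K0 * G := by
          have e : x - b i = t • d i A.2 - w := by
            have : x = b i + t • d i A.2 - w := by rw [← hxw]; abel
            rw [this]
            abel
          rw [e]
          refine (norm_sub_le _ _).trans ?_
          rw [norm_smul, h.dn i A.2, mul_one, Real.norm_eq_abs, abs_of_nonneg ht0]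
          have h2 := hlen A
          linarith
        apply hreal i hi A.2 x hx hxb w hw
        have e2 : x + w - b i = t • d i A.2 := by
          rw [hxw]
          abel
        rw [e2, cr_smul_right, cr_self, mul_zero]
      few := hfew
      hry := fun i => ⟨(hry i).1, (hry i).2.trans (by nlinarith)⟩
      sep := hsep
      nearP := by
        intro i k
        simp only [oP]
        split_ifs
        · exact hpt i 1
        · exact hpt0 i
      nearQ := by
        intro i k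
        simp only [oQ]
        split_ifs
        · exact hpt i 0
        · exact hpt i 2
        · exact hpt i 3
      ts := by
        intro z
        refine cta_mono (hTS z) ?_
        rintro x ⟨hx, hxz⟩
        refine ⟨hx, hxz.trans ?_⟩
        have : 0 < (2 * K0 + 2) * G := by positivity
        nlinarith }

/-- Job D8.  Members hit by the structure. -/
theorem hit_u {K κ : ℝ} (hK : 1 ≤ K) (hκ : 0 < κ) :
    ∃ κ1 > 0, ∃ G0 : ℝ, ∀ C : Set V, NB C → ∀ {I : Type} {X : Set V} {P Q : I × Fin 3 → V} {y : I → V} {ry : I → ℝ}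
    {poor : Set I} {G : ℝ}, G0 ≤ G → IsPacking C X → IsStr C X P Q y ry poor K κ G →
    ∀ R : ℝ, 0 ≤ R →
    {i | i ∈ poor ∧ ‖y i‖ ≤ R + 2 * K * G}.Finite ∧
    {x | x ∈ X ∧ ‖x‖ ≤ R ∧ ∃ w ∈ interior C, x + w ∈ Sg P Q}.Finite ∧
    ({x | x ∈ X ∧ ‖x‖ ≤ R ∧ ∃ w ∈ interior C, x + w ∈ Sg P Q}.ncard : ℝ) ≤
      κ1 * G * {i | i ∈ poor ∧ ‖y i‖ ≤ R + 2 * K * G}.ncard := by
  obtain ⟨RC, hRR⟩ : ∃ RC : ℝ, RC = 1 := ⟨_, rfl⟩
  have hRC : 0 < RC := by rw [hRR]; exact one_pos
  obtain ⟨k0, hk0, hseg'⟩ := card_near_seg_u RC (le_of_lt hRC)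
  have hK0 : 0 < K := by linarith
  refine ⟨9 * k0 * K, by positivity, RC / K, ?_⟩
  intro C hN I X P Q y ry poor G hG hX h R hR
  have hseg := hseg' C hN
  have hCb : C ⊆ Metric.closedBall (0 : V) RC := by rw [hRR]; exact hN.out
  have hG1 := h.hG
  have hG0 : 0 < G := by linarith
  have hKG : 1 ≤ K * G := by nlinarith
  have hRCK : RC ≤ K * G := by
    rw [div_le_iff₀ hK0] at hG
    linarith
  have hA : {i | i ∈ poor ∧ ‖y i‖ ≤ R + 2 * K * G}.Finite := by
    have h1 := (h.card_sites 0 (R / G + 2 * K) (by positivity)).1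
    apply h1.subset
    rintro i ⟨-, hi⟩
    rw [mem_setOf_eq, sub_zero]
    have : (R / G + 2 * K) * G = R + 2 * K * G := by field_simp
    rw [this]
    exact hi
  refine ⟨hA, ?_⟩
  have hS : ∀ (i : I) (k : Fin 3),
      {x | x ∈ X ∧ ∃ y ∈ segment ℝ (P (i, k)) (Q (i, k)), ‖x - y‖ ≤ RC}.Finite ∧
      ({x | x ∈ X ∧ ∃ y ∈ segment ℝ (P (i, k)) (Q (i, k)), ‖x - y‖ ≤ RC}.ncard : ℝ) ≤
        3 * k0 * K * G := by
    intro i k
    obtain ⟨h1, h2⟩ := hseg X hX (P (i, k)) (Q (i, k))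
    refine ⟨h1, h2.trans ?_⟩
    have h3 : ‖P (i, k) - Q (i, k)‖ ≤ 2 * (K * G) := by
      have e : P (i, k) - Q (i, k) = (P (i, k) - y i) - (Q (i, k) - y i) := by abel
      rw [e]
      refine (norm_sub_le _ _).trans ?_
      have := h.nearP i k
      have := h.nearQ i k
      linarith
    have h4 : ‖P (i, k) - Q (i, k)‖ + 1 ≤ 3 * (K * G) := by linarith
    calc k0 * (‖P (i, k) - Q (i, k)‖ + 1) ≤ k0 * (3 * (K * G)) :=
          mul_le_mul_of_nonneg_left h4 hk0.le
      _ = 3 * k0 * K * G := by ring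
  have hB : ∀ x ∈ {x | x ∈ X ∧ ‖x‖ ≤ R ∧ ∃ w ∈ interior C, x + w ∈ Sg P Q},
      ∃ i ∈ {i | i ∈ poor ∧ ‖y i‖ ≤ R + 2 * K * G}, ∃ k : Fin 3,
        x ∈ {x | x ∈ X ∧ ∃ y ∈ segment ℝ (P (i, k)) (Q (i, k)), ‖x - y‖ ≤ RC} := by
    rintro x ⟨hxX, hxR, w, hw, hxw⟩
    unfold Sg at hxw
    rw [mem_iUnion] at hxw
    obtain ⟨⟨i, k⟩, hik⟩ := hxw
    have hwn : ‖w‖ ≤ RC := by
      have := hCb (interior_subset hw)
      rwa [mem_closedBall_zero_iff] at this
    have hpoor : i ∈ poor := by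
      by_contra hcon
      exact h.real i hcon k x hxX w hw hik
    have hball : x + w ∈ Metric.closedBall (y i) (K * G) := by
      apply (convex_closedBall (y i) (K * G)).segment_subset _ _ hik
      · rw [mem_closedBall_iff_norm]; exact h.nearP i k
      · rw [mem_closedBall_iff_norm]; exact h.nearQ i k
    rw [mem_closedBall_iff_norm] at hball
    refine ⟨i, ⟨hpoor, ?_⟩, k, hxX, x + w, hik, ?_⟩
    · have e : y i = x + w - (x + w - y i) := by abel
      rw [e]
      refine (norm_sub_le _ _).trans ?_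
      have h5 := norm_add_le x w
      have : 2 * K * G = K * G + K * G := by ring
      rw [this]
      linarith
    · have e : x - (x + w) = -w := by abel
      rw [e, norm_neg]
      exact hwn
  obtain ⟨h1, h2⟩ := ctc_union hA
    (fun i k => {x | x ∈ X ∧ ∃ y ∈ segment ℝ (P (i, k)) (Q (i, k)), ‖x - y‖ ≤ RC})
    (fun i k => (hS i k).1) hB (fun i k => (hS i k).2)
  refine ⟨h1, h2.trans (le_of_eq ?_)⟩
  ring

end Pool.Agent.H.MP_929345_co.Ub
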