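import Pool.Agent.H.MP_929345_co.Ub.F
import Pool.Agent.H.MP_929345_co.Ub.B
import Pool.Agent.H.MP_929345_co.Pl.CtF

/-! Uniform constants: the final count -/

set_option autoImplicit false

open MeasureTheory Set

namespace Pool.Agent.H.MP_929345_co.Ub

open Pool.Agent.H.MP_929345_co Pool.Agent.H.MP_929345_co.Pl

/-- Job D11.  Final count. -/
theorem count_bound_u : ∃ R0 K' : ℝ, ∀ C : Set V, NB C → ∀ X : Set V, IsPacking C X →
    (∀ z, TS C {x | x ∈ X ∧ ‖x - z‖ ≤ R0}) → ∀ R : ℝ, 1 ≤ R →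
      beta C * (X ∩ Metric.closedBall 0 R).ncard ≤ 4 * R ^ 2 + K' * R := by
  obtain ⟨K, κ, G0, hK, hκ, hG0, hstr'⟩ := exists_str_u
  obtain ⟨κ1, hκ1, G1, hhit'⟩ := hit_u hK hκ
  obtain ⟨κ2, hκ2, hann⟩ := IsStr.annulus (K := K) (κ := κ) hK hκ
  obtain ⟨m, hm, hpc⟩ := IsStr.poor_card (K := K) (κ := κ) hK hκ
  obtain ⟨κ30, hκ30, hgain0'⟩ := gain_u
  have hmR : (1 : ℝ) ≤ m := by exact_mod_cast hm
  set κ3 : ℝ := max κ30 4 with hκ3
  have hκ30' : 0 ≤ κ3 := le_trans (by norm_num) (le_max_right κ30 4)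
  set c0 : ℝ := 2 * m with hc0
  set c1 : ℝ := 4 * κ1 + 2 * κ3 * K * m with hc1
  set c2 : ℝ := 3 * κ ^ 2 / m with hc2
  have hc0' : 0 ≤ c0 := by positivity
  have hc1' : 0 ≤ c1 := by positivity
  have hc2' : 0 < c2 := by positivity
  set G : ℝ := max (max G0 G1) (max 1 ((c0 + c1) / c2)) with hG
  have hGG0 : G0 ≤ G := (le_max_left _ _).trans (le_max_left _ _)
  have hGG1 : G1 ≤ G := (le_max_right _ _).trans (le_max_left _ _)
  have hG1 : 1 ≤ G := (le_max_left _ _).trans (le_max_right _ _)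
  have hG2 : (c0 + c1) / c2 ≤ G := (le_max_right _ _).trans (le_max_right _ _)
  have hcoef : c0 + c1 * G - c2 * G ^ 2 ≤ 0 := by
    rw [div_le_iff₀ hc2'] at hG2
    nlinarith
  refine ⟨16 * K * G, 8 * (3 * (K * G) + 1) + 4 * (3 * (K * G) + 1) ^ 2 +
    (1 / m) * ((3 * (κ * G) ^ 2 + (K * G) ^ 2) * κ2), ?_⟩
  intro C hN X hX hTS R hR
  have hC := hN.body
  have hβ : 0 ≤ beta C := (vl_pos hC).le.trans (vl_le_beta hC)
  have hβ4 := beta_le_four hN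
  have hbv : 0 ≤ (beta C - vl C) / 2 := by linarith [vl_le_beta hC]
  have hvp := vl_pos hC
  have hstr := hstr' C hN
  have hgain0 := hgain0' C hN
  have hgain : ∀ (W : Set V) (D : ℝ), IsCompact W →
      Convex ℝ W → 1 ≤ D → (∀ x ∈ W, ∀ y ∈ W, ‖x - y‖ ≤ D) → ∀ X : Finset V,
      IsPacking C (X : Set V) → TS C (X : Set V) → (∀ x ∈ X, ∀ c ∈ C, x + c ∈ W) →
      ∀ (y : V) (R : ℝ), 0 ≤ R →
      vl (W ∩ Metric.closedBall y R) +
        beta C * ({x | x ∈ X ∧ x ∉ Metric.closedBall y R}.ncard : ℝ) ≤ vl W + κ3 * D := by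
    intro W D h1 h2 h3 h4 X h5 h6 h7 y R h8
    have h9 := hgain0 W D h1 h2 h3 h4 X h5 h6 h7 y R h8
    have h10 : κ30 * D ≤ κ3 * D := mul_le_mul_of_nonneg_right (le_max_left _ _) (by linarith)
    linarith
  obtain ⟨I, hI, P, Q, y, ry, poor, h⟩ := hstr G hGG0 X hX hTS
  obtain ⟨hf1, hf2, hf3⟩ := hhit' C hN hGG1 hX h R (by linarith)
  obtain ⟨hf4, hf5⟩ := hann h R hR
  have key := ctf_core hC (hβ4.trans (le_max_right κ30 4)) hgain hX h hm (fun i => hpc h i) hR hf1 rfl hf2 hf3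
    hf4 hf5
  set n : ℝ := ({i | i ∈ poor ∧ ‖y i‖ ≤ R + 2 * K * G}.ncard : ℝ) with hn
  have hn0 : 0 ≤ n := Nat.cast_nonneg _
  have hm0 : (0 : ℝ) ≤ m := by linarith
  have hG0' : 0 ≤ G := by linarith
  have f1 : (beta C - vl C) / 2 * (m * n) ≤ 2 * (m * n) := by
    apply mul_le_mul_of_nonneg_right _ (by positivity)
    linarith
  have f2 : beta C * (κ1 * G * n) ≤ 4 * (κ1 * G * n) :=
    mul_le_mul_of_nonneg_right hβ4 (by positivity)
  have e1 : (2 * (R + 3 * (K * G) + 1)) ^ 2 +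
      2 * (m * n) + 4 * (κ1 * G * n) + κ3 * (2 * (K * G)) * (m * n) -
      (1 / m) * (3 * (κ * G) ^ 2 * n - (3 * (κ * G) ^ 2 + (K * G) ^ 2) * (κ2 * R)) =
      (2 * (R + 3 * (K * G) + 1)) ^ 2 + (c0 + c1 * G - c2 * G ^ 2) * n +
      (1 / m) * ((3 * (κ * G) ^ 2 + (K * G) ^ 2) * κ2) * R := by
    rw [hc0, hc1, hc2]
    field_simp
    ring
  have key2 := key.trans (show _ ≤ (2 * (R + 3 * (K * G) + 1)) ^ 2 +
      2 * (m * n) + 4 * (κ1 * G * n) + κ3 * (2 * (K * G)) * (m * n) -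
      (1 / m) * (3 * (κ * G) ^ 2 * n - (3 * (κ * G) ^ 2 + (K * G) ^ 2) * (κ2 * R)) by linarith)
  rw [e1] at key2
  have e2 : (c0 + c1 * G - c2 * G ^ 2) * n ≤ 0 := mul_nonpos_of_nonpos_of_nonneg hcoef hn0
  have hKG : 1 ≤ K * G := by nlinarith
  have e3 : (2 * (R + 3 * (K * G) + 1)) ^ 2 ≤ 4 * R ^ 2 +
      (8 * (3 * (K * G) + 1) + 4 * (3 * (K * G) + 1) ^ 2) * R := by
    have : 0 ≤ (3 * (K * G) + 1) ^ 2 := by positivity
    nlinarith
  linarith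

end Pool.Agent.H.MP_929345_co.Ub
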