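import Pool.Agent.H.MP_929345_co.Ub.G
import Pool.Agent.H.MP_929345_co.Ub.No
import Pool.Agent.H.MP_929345_co.Ub.Ct
import Pool.Agent.H.MP_929345_co.Ly.Fn

/-! Layered packings, absolute constant. -/

set_option autoImplicit false

open MeasureTheory Set Filter
open scoped Topology ENNReal

namespace Pool.Agent.H.MP_929345_co.Ub

open Pool.Agent.H.MP_929345_co Pool.Agent.H.MP_929345_co.Pl Pool.Agent.H.MP_929345_co.Ly

/-- Members of one layer close to each other are inside the enlarged copy. -/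
theorem mem_cl_u (D : ℝ) : ∃ ρ0 : ℝ, 1 ≤ ρ0 ∧ ∀ (d n : ℕ)
    (A : (Fin d → ℝ) ≃L[ℝ] V × (Fin n → ℝ)) (C : Set (Fin d → ℝ)), IsBody C → NB (Ks A C) →
    ∀ ρ ≥ ρ0, ∀ s c : Fin d → ℝ, (A s).2 = (A c).2 → ‖(A s).1 - (A c).1‖ ≤ D →
      ∀ w ∈ C, ∃ v ∈ C, s + w = c + ρ • v := by
  refine ⟨2 + 2 * |D|, by linarith [abs_nonneg D], ?_⟩
  intro d n A C hC hN ρ hρ s c h2 h1 w hw
  have hD := abs_nonneg D
  have hρ0 : 0 < ρ := by linarith
  obtain ⟨σ, hσ⟩ : ∃ σ : ℝ, σ = ρ - 1 := ⟨_, rfl⟩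
  have hσ1 : 1 + 2 * |D| ≤ σ := by linarith
  have hσ0 : 0 < σ := by linarith
  have hq : σ⁻¹ • (s - c) ∈ C := by
    have h3 : σ⁻¹ • ((A s).1 - (A c).1) ∈ Ks A C := by
      apply hN.inn
      rw [mem_closedBall_zero_iff, norm_smul, norm_inv, Real.norm_eq_abs, abs_of_pos hσ0,
        inv_mul_le_iff₀ hσ0]
      linarith [le_abs_self D]
    have h4 : A.symm (σ⁻¹ • ((A s).1 - (A c).1), 0) = σ⁻¹ • (s - c) := by
      rw [ContinuousLinearEquiv.symm_apply_eq, map_smul, map_sub]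
      ext i
      · rfl
      · simp [h2]
    have h5 : A.symm (σ⁻¹ • ((A s).1 - (A c).1), 0) ∈ C := h3
    rwa [h4] at h5
  have hv := hC.convex hw hq (inv_pos.2 hρ0).le (mul_nonneg (inv_pos.2 hρ0).le hσ0.le)
    (by rw [hσ]; field_simp; ring)
  refine ⟨_, hv, ?_⟩
  rw [smul_add, smul_smul, smul_smul, smul_smul, mul_inv_cancel₀ hρ0.ne', ← mul_assoc,
    mul_inv_cancel₀ hρ0.ne', one_mul, mul_inv_cancel₀ hσ0.ne', one_smul, one_smul]
  abel

/-- Sections of layered `ρ`-separable packings are totally separable in windows. -/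
theorem lay_TS_u (R0 : ℝ) : ∃ ρ0 : ℝ, 1 ≤ ρ0 ∧ ∀ (d n : ℕ)
    (A : (Fin d → ℝ) ≃L[ℝ] V × (Fin n → ℝ)) (C : Set (Fin d → ℝ)), IsBody C → NB (Ks A C) →
    ∀ ρ ≥ ρ0, ∀ S : Set (Fin d → ℝ), RhoSep ρ C S → LayA A S → ∀ (t : Fin n → ℝ) (z : V),
      TS (Ks A C) {x | x ∈ Sec A S t ∧ ‖x - z‖ ≤ R0} := by
  obtain ⟨ρ0, hρ0, hcl'⟩ := mem_cl_u (2 * R0)
  refine ⟨ρ0, hρ0, ?_⟩
  intro d n A C hC hN ρ hρ S hS hL t z
  have hK : IsBody (Ks A C) := hN.body
  have hcl := hcl' d n A C hC hN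
  rintro x ⟨⟨s, hs, hsx, hst⟩, hxz⟩ y ⟨⟨s', hs', hsy, hst'⟩, hyz⟩ hne
  have hR0 : 0 ≤ R0 := (norm_nonneg _).trans hxz
  -- all members of the section lie in the layer of `s`
  have hlay : ∀ q ∈ S, (∀ i, |(A q).2 i - t i| < 1) → (A q).2 = (A s).2 := by
    intro q hq hqt
    rcases hL q hq s hs with h | ⟨i, hi⟩
    · exact h
    · exfalso
      have e : (A q).2 i - (A s).2 i = ((A q).2 i - t i) - ((A s).2 i - t i) := by ring
      rw [e] at hi
      have h1 := abs_sub ((A q).2 i - t i) ((A s).2 i - t i)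
      linarith [hqt i, hst i]
  -- all members of the window are in the cluster of `s`
  have hin : ∀ q ∈ S, ‖(A q).1 - z‖ ≤ R0 → (∀ i, |(A q).2 i - t i| < 1) →
      q ∈ {c' ∈ S | ∀ w ∈ C, ∃ v ∈ C, c' + w = s + ρ • v} := by
    intro q hq hqz hqt
    refine ⟨hq, hcl ρ hρ q s (hlay q hq hqt) ?_⟩
    have e : (A q).1 - (A s).1 = ((A q).1 - z) - ((A s).1 - z) := by abel
    rw [e]
    refine (norm_sub_le _ _).trans ?_
    rw [hsx]; linarith
  have hss : s ≠ s' := by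
    rintro rfl
    exact hne (hsx.symm.trans hsy)
  have hms := hin s hs (by rw [hsx]; exact hxz) hst
  obtain ⟨f, hf, τ, f1, f2, f3⟩ := hS s hs s hms
    s' (hin s' hs' (by rw [hsy]; exact hyz) hst') hss
  -- the planar functional
  set F : V × (Fin n → ℝ) →L[ℝ] ℝ := f.comp (A.symm : V × (Fin n → ℝ) →L[ℝ] (Fin d → ℝ)) with hF
  obtain ⟨g, hg⟩ := exists_vec (F.comp (ContinuousLinearMap.inl ℝ V (Fin n → ℝ)))
  have hfF : ∀ (q : Fin d → ℝ) (k : V), (A q).2 = (A s).2 → f (q + A.symm (k, 0))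
      = ev g (A q).1 + ev g k + F (0, (A s).2) := by
    intro q k hq2
    have e1 : q + A.symm (k, 0) = A.symm ((A q).1 + k, (A s).2) := by
      apply A.injective
      rw [map_add, A.apply_symm_apply, A.apply_symm_apply]
      ext i
      · rfl
      · simp [hq2]
    have e2 : (((A q).1 + k, (A s).2) : V × (Fin n → ℝ)) =
        ((A q).1 + k, 0) + (0, (A s).2) := by
      ext i <;> simp
    have e3 : ev g ((A q).1 + k) = F ((A q).1 + k, 0) := by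
      rw [hg]; rfl
    rw [← ev_add, e3, ← map_add, ← e2, e1]
    rfl
  have hw : ∀ k ∈ Ks A C, A.symm (k, 0) ∈ C := fun k hk => hk
  obtain ⟨kp, hkp, hkp'⟩ := exists_hs hK.compact ⟨0, zero_mem hK⟩ g
  obtain ⟨km, hkm, hkm'⟩ := exists_hs hK.compact ⟨0, zero_mem hK⟩ (-g)
  rw [hs_neg hK, ev_neg_left] at hkm'
  have hup : ∀ q : Fin d → ℝ, (A q).2 = (A s).2 → (∀ w ∈ C, f (q + w) ≤ τ) →
      ev g (A q).1 + Pl.hs (Ks A C) g ≤ τ - F (0, (A s).2) := by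
    intro q hq h
    have := h _ (hw kp hkp)
    rw [hfF q kp hq] at this
    linarith
  have hdn : ∀ q : Fin d → ℝ, (A q).2 = (A s).2 → (∀ w ∈ C, τ ≤ f (q + w)) →
      τ - F (0, (A s).2) ≤ ev g (A q).1 - Pl.hs (Ks A C) g := by
    intro q hq h
    have := h _ (hw km hkm)
    rw [hfF q km hq] at this
    linarith
  refine ⟨g, τ - F (0, (A s).2), ?_, ?_, ?_, ?_⟩
  · rintro rfl
    have h1 := f1 _ (hw 0 (zero_mem hK))
    have h2 := f2 _ (hw 0 (zero_mem hK))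
    rw [hfF s 0 rfl] at h1
    rw [hfF s' 0 (hlay s' hs' hst')] at h2
    rw [ev_zero_left, ev_zero_left] at h1 h2
    have h00 : A.symm ((0 : V), (0 : Fin n → ℝ)) = 0 := by
      rw [← Prod.zero_eq_mk, map_zero]
    have h3 := f3 s hms (A.symm ((0 : V), (0 : Fin n → ℝ))) (by
      rw [h00]
      exact hC.zero_mem_interior)
    rw [hfF s 0 rfl, ev_zero_left, ev_zero_left] at h3
    exact h3 (le_antisymm h1 h2)
  · rw [← hsx]; exact hup s rfl f1
  · rw [← hsy]; exact hdn s' (hlay s' hs' hst') f2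
  · rintro p ⟨⟨q, hq, hqp, hqt⟩, hpz⟩
    rw [← hqp]
    rcases Pl.dich hC f q τ (f3 q (hin q hq (by rw [hqp]; exact hpz) hqt)) with h | h
    · exact Or.inl (hup q (hlay q hq hqt) h)
    · exact Or.inr (hdn q (hlay q hq hqt) h)

/-- The upper bound. -/
theorem lay_upper_u : ∃ ρ0 : ℝ, 1 ≤ ρ0 ∧ ∀ (d n : ℕ)
    (A : (Fin d → ℝ) ≃L[ℝ] V × (Fin n → ℝ)) (C : Set (Fin d → ℝ)), IsBody C → NB (Ks A C) →
    ∀ k : ℝ, 0 < k → (∀ T : Set (V × (Fin n → ℝ)), MeasurableSet T →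
      volume (A ⁻¹' T) = ENNReal.ofReal k * volume T) →
    ∀ ρ ≥ ρ0, ∀ S : Set (Fin d → ℝ), IsPacking C S → RhoSep ρ C S → LayA A S →
      dens C S ≤ ENNReal.ofReal ((volume C).toReal / (k * 2 ^ n * beta (Ks A C))) := by
  obtain ⟨R0, K', hcount'⟩ := count_bound_u
  obtain ⟨ρ0, hρ0, hsec⟩ := lay_TS_u R0
  refine ⟨ρ0, hρ0, ?_⟩
  intro d n A C hC hN k hk hvol ρ hρ S hS hSρ hL
  have hK : IsBody (Ks A C) := hN.body
  have hcount := hcount' (Ks A C) hN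
  have hb := beta_pos hK
  have hTS := hsec d n A C hC hN ρ hρ S hSρ hL
  have hSc := lay_packing A hC hS hL
  set v : ℝ := (volume C).toReal with hv
  have hv0 : 0 ≤ v := ENNReal.toReal_nonneg
  have hbound : ∀ R : ℝ, 1 ≤ R → dens C S ≤ ENNReal.ofReal
      (v / (k * 2 ^ n * beta (Ks A C)) * ((1 + K' / 4 / R) * (1 + 1 / R) ^ n)) := by
    intro R hR
    have hR0 : 0 < R := by linarith
    have hwin := fun (z : V × (Fin n → ℝ)) (F : Finset (Fin d → ℝ))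
      (hF : ∀ s ∈ F, s ∈ S ∧ ‖A s - z‖ ≤ R) => window_count A hK hcount hSc hTS z hR F hF
    have hM0 : 0 ≤ (4 * R ^ 2 + K' * R) / beta (Ks A C) * (R + 1) ^ n := by
      have := hwin 0 ∅ (by simp)
      simpa using this
    have h := dens_le_win A hC hS hk hvol hR hM0 hwin
    refine h.trans (le_of_eq ?_)
    congr 1
    rw [pow_add, mul_pow, mul_pow]
    have : (1 + 1 / R) ^ n = (R + 1) ^ n / R ^ n := by
      rw [← div_pow]; congr 1; field_simp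
    rw [this]
    field_simp
    ring
  have hlim : Tendsto (fun R : ℝ => ENNReal.ofReal
      (v / (k * 2 ^ n * beta (Ks A C)) * ((1 + K' / 4 / R) * (1 + 1 / R) ^ n))) atTop
      (𝓝 (ENNReal.ofReal (v / (k * 2 ^ n * beta (Ks A C))))) := by
    have h1 : Tendsto (fun R : ℝ => v / (k * 2 ^ n * beta (Ks A C)) *
        ((1 + K' / 4 / R) * (1 + 1 / R) ^ n)) atTop
        (𝓝 (v / (k * 2 ^ n * beta (Ks A C)) * ((1 + 0) * (1 + 0) ^ n))) :=
      ((tendsto_const_nhds.add (tendsto_const_nhds.div_atTop tendsto_id)).mul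
        ((tendsto_const_nhds.add (tendsto_const_nhds.div_atTop tendsto_id)).pow n)).const_mul _
    simp only [add_zero, one_pow, mul_one] at h1
    exact ENNReal.tendsto_ofReal h1
  refine ge_of_tendsto hlim ?_
  filter_upwards [eventually_ge_atTop 1] with R hR
  exact hbound R hR

/-- Layered packings: the theorem, with one absolute constant. -/
theorem layered_u : ∃ ρ0 : ℝ, 1 ≤ ρ0 ∧ ∀ (n : ℕ) (C : Set (Fin (n + 2) → ℝ)), IsBody C →
    ∀ u : Fin n → ((Fin (n + 2) → ℝ) →L[ℝ] ℝ), LinearIndependent ℝ u →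
    (∀ i, ∀ x ∈ C, |u i x| ≤ 1) → ∀ ρ ≥ ρ0,
    ((⨆ S ∈ {S : Set (Fin (n + 2) → ℝ) | IsPacking C S ∧ Layered u S ∧ RhoSep ρ C S},
        dens C S) =
      ⨆ S ∈ {S : Set (Fin (n + 2) → ℝ) | IsPacking C S ∧ Layered u S ∧ TotSep C S},
        dens C S) ∧
    ((⨆ S ∈ {S : Set (Fin (n + 2) → ℝ) | IsPacking C S ∧ Layered u S ∧ TotSep C S},
        dens C S) =
      ⨆ S ∈ {S : Set (Fin (n + 2) → ℝ) | IsPacking C S ∧ Layered u S ∧ TotSep C S ∧ IsLat S},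
        dens C S) := by
  obtain ⟨ρ0, hρ0, hup'⟩ := lay_upper_u
  refine ⟨ρ0, hρ0, ?_⟩
  intro n C hC u hu huC ρ hρ
  obtain ⟨A0, hA0⟩ := exists_A u hu
  obtain ⟨T, hT1, hT2, hT3⟩ := norm_body (ks_isBody A0 hC)
  obtain ⟨A, hA, hN⟩ : ∃ A : (Fin (n + 2) → ℝ) ≃L[ℝ] V × (Fin n → ℝ),
      (∀ x i, (A x).2 i = u i x) ∧ NB (Ks A C) := by
    refine ⟨cT T A0, fun x i => ?_, ?_⟩
    · rw [cT_snd]
      exact hA0 x i
    · rw [ks_cT]
      exact ⟨hT1, hT2, hT3⟩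
  obtain ⟨κ, hκ0, hκT, hκ⟩ := vol_scale A
  have hk : 0 < κ.toReal := ENNReal.toReal_pos hκ0 hκT
  have hvol : ∀ T : Set (V × (Fin n → ℝ)), MeasurableSet T →
      volume (A ⁻¹' T) = ENNReal.ofReal κ.toReal * volume T := by
    intro T hT
    rw [hκ T hT, ENNReal.ofReal_toReal hκT]
  have hLA : ∀ S : Set (Fin (n + 2) → ℝ), Layered u S → LayA A S := by
    intro S hS x hx y hy
    rcases hS x hx y hy with h | ⟨i, h⟩
    · left
      funext i
      rw [hA, hA]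
      exact h i
    · right
      refine ⟨i, ?_⟩
      rw [hA, hA]
      exact h
  have hup := hup' (n + 2) n A C hC hN κ.toReal hk hvol
  have hlow := lay_lower A hC u hA huC hk hvol
  have h12 : (⨆ S ∈ {S : Set (Fin (n + 2) → ℝ) |
      IsPacking C S ∧ Layered u S ∧ RhoSep ρ C S}, dens C S) ≤
      ⨆ S ∈ {S : Set (Fin (n + 2) → ℝ) |
        IsPacking C S ∧ Layered u S ∧ TotSep C S ∧ IsLat S}, dens C S := by
    refine iSup₂_le fun S hS => ?_
    exact (hup ρ hρ S hS.1 hS.2.2 (hLA S hS.2.1)).trans hlow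
  have h23 : (⨆ S ∈ {S : Set (Fin (n + 2) → ℝ) |
        IsPacking C S ∧ Layered u S ∧ TotSep C S ∧ IsLat S}, dens C S) ≤
      ⨆ S ∈ {S : Set (Fin (n + 2) → ℝ) | IsPacking C S ∧ Layered u S ∧ TotSep C S},
        dens C S := biSup_mono fun X hX => ⟨hX.1, hX.2.1, hX.2.2.1⟩
  have h31 : (⨆ S ∈ {S : Set (Fin (n + 2) → ℝ) |
      IsPacking C S ∧ Layered u S ∧ TotSep C S}, dens C S) ≤
      ⨆ S ∈ {S : Set (Fin (n + 2) → ℝ) | IsPacking C S ∧ Layered u S ∧ RhoSep ρ C S},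
        dens C S := biSup_mono fun X hX => ⟨hX.1, hX.2.1, rhoSep_of_totSep ρ hX.2.2⟩
  exact ⟨le_antisymm (h12.trans h23) h31, le_antisymm (h31.trans h12) h23⟩

end Pool.Agent.H.MP_929345_co.Ub
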